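import Pool.Agent.Helper72.BA.Defs

/-!
# Concentration of the Gamma distribution
-/

set_option autoImplicit false

open MeasureTheory Complex FourierTransform Filter Topology
open scoped ENNReal NNReal ComplexConjugate

noncomputable section

namespace Helper72.BA.P

open Helper72.BA

lemma gc_int (k : ℕ) : IntegrableOn (fun y : ℝ => y ^ k * Real.exp (-y)) (Set.Ioi 0) := by
  have h := Real.GammaIntegral_convergent (s := (k : ℝ) + 1) (by positivity)
  refine h.congr_fun (fun y _ => ?_) measurableSet_Ioi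
  simp only
  rw [add_sub_cancel_right, Real.rpow_natCast, mul_comm]

lemma gc_val (k : ℕ) : ∫ y in Set.Ioi (0:ℝ), y ^ k * Real.exp (-y) = (k.factorial : ℝ) := by
  rw [← Real.Gamma_nat_eq_factorial, Real.Gamma_eq_integral (by positivity)]
  refine setIntegral_congr_fun measurableSet_Ioi fun y _ => ?_
  rw [add_sub_cancel_right, Real.rpow_natCast, mul_comm]

/-- bound of the variation of `h` -/
lemma gc_bound (h : ℝ → ℝ) (C : ℝ) (hb : ∀ x, 0 < x → |h x| ≤ C * (1 + x))
    (hc : ContinuousAt h 1) {ε : ℝ} (hε : 0 < ε) :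
    ∃ D : ℝ, 0 ≤ D ∧ ∀ x, 0 < x → |h x - h 1| ≤ ε + D * (x - 1) ^ 2 := by
  have hC : 0 ≤ C := by
    have := (abs_nonneg _).trans (hb 1 one_pos)
    linarith
  have h1 : |h 1| ≤ 2 * C := by
    have := hb 1 one_pos
    linarith
  rw [Metric.continuousAt_iff] at hc
  obtain ⟨δ, hδ, hd⟩ := hc ε hε
  refine ⟨C * (4 / δ ^ 2 + 1 / δ), by positivity, fun x hx => ?_⟩
  by_cases hxd : |x - 1| < δ
  · have h2 := hd (x := x) (by rwa [Real.dist_eq])
    rw [Real.dist_eq] at h2
    have : 0 ≤ C * (4 / δ ^ 2 + 1 / δ) * (x - 1) ^ 2 := by positivity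
    linarith
  · rw [not_lt] at hxd
    have h2 : |h x - h 1| ≤ C * (4 + |x - 1|) := by
      have h3 := abs_sub (h x) (h 1)
      have h4 := hb x hx
      have h5 : x ≤ 1 + |x - 1| := by
        have := le_abs_self (x - 1)
        linarith
      nlinarith
    have h3 : 1 ≤ (x - 1) ^ 2 / δ ^ 2 := by
      rw [le_div_iff₀ (by positivity), one_mul, ← sq_abs (x - 1)]
      gcongr
    have h4 : |x - 1| ≤ (x - 1) ^ 2 / δ := by
      rw [le_div_iff₀ hδ, ← sq_abs (x - 1), sq]
      gcongr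
    calc |h x - h 1| ≤ C * (4 + |x - 1|) := h2
      _ ≤ C * (4 * ((x - 1) ^ 2 / δ ^ 2) + (x - 1) ^ 2 / δ) := by
          apply mul_le_mul_of_nonneg_left _ hC
          linarith
      _ = C * (4 / δ ^ 2 + 1 / δ) * (x - 1) ^ 2 := by ring
      _ ≤ _ := by linarith

lemma gc_main (h : ℝ → ℝ) (hm : Measurable h) (C : ℝ) (hb : ∀ x, 0 < x → |h x| ≤ C * (1 + x))
    {ε D : ℝ} (hD : ∀ x, 0 < x → |h x - h 1| ≤ ε + D * (x - 1) ^ 2)
    (m n : ℕ) (hn : 0 < n) :
    |((m.factorial : ℝ))⁻¹ * (∫ y in Set.Ioi (0:ℝ), h (y / n) * y ^ m * Real.exp (-y)) - h 1| ≤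
      ε + D * (((m : ℝ) + 1) * (m + 2) / n ^ 2 - 2 * (m + 1) / n + 1) := by
  have hn0 : (0 : ℝ) < n := by exact_mod_cast hn
  have hm0 : (0 : ℝ) < (m.factorial : ℝ) := by
    have := Nat.factorial_pos m
    exact_mod_cast this
  have I0 := gc_int m
  have I1 := gc_int (m + 1)
  have I2 := gc_int (m + 2)
  have V0 := gc_val m
  have V1 := gc_val (m + 1)
  have V2 := gc_val (m + 2)
  have hF1 : ((m + 1).factorial : ℝ) = (m + 1) * m.factorial := by
    rw [Nat.factorial_succ]; push_cast; ring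
  have hF2 : ((m + 2).factorial : ℝ) = (m + 2) * ((m + 1) * m.factorial) := by
    rw [Nat.factorial_succ, Nat.factorial_succ]; push_cast; ring
  rw [hF1] at V1
  rw [hF2] at V2
  -- integrability of the main function
  have IH : IntegrableOn (fun y : ℝ => h (y / n) * y ^ m * Real.exp (-y)) (Set.Ioi 0) := by
    have Ib : IntegrableOn (fun y : ℝ => C * (y ^ m * Real.exp (-y)) +
        C / n * (y ^ (m + 1) * Real.exp (-y))) (Set.Ioi 0) :=
      (I0.const_mul C).add (I1.const_mul (C / n))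
    refine Integrable.mono' Ib ?_ ?_
    · apply Measurable.aestronglyMeasurable
      fun_prop
    · rw [ae_restrict_iff' measurableSet_Ioi]
      refine Eventually.of_forall fun y hy => ?_
      have hy0 : (0 : ℝ) < y := hy
      have h1 := hb (y / n) (by positivity)
      rw [Real.norm_eq_abs, abs_mul, abs_mul, abs_of_pos (pow_pos hy0 m),
        abs_of_pos (Real.exp_pos _)]
      calc |h (y / n)| * y ^ m * Real.exp (-y) ≤ C * (1 + y / n) * y ^ m * Real.exp (-y) := by
            gcongr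
        _ = _ := by rw [pow_succ]; field_simp
  have ID : IntegrableOn (fun y : ℝ => (h (y / n) - h 1) * (y ^ m * Real.exp (-y)))
      (Set.Ioi 0) := by
    have := IH.sub (I0.const_mul (h 1))
    refine this.congr_fun (fun y _ => ?_) measurableSet_Ioi
    simp only [Pi.sub_apply]
    ring
  have e1 : ((m.factorial : ℝ))⁻¹ * (∫ y in Set.Ioi (0:ℝ), h (y / n) * y ^ m * Real.exp (-y))
      - h 1 = ((m.factorial : ℝ))⁻¹ *
        ∫ y in Set.Ioi (0:ℝ), (h (y / n) - h 1) * (y ^ m * Real.exp (-y)) := by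
    have : ∫ y in Set.Ioi (0:ℝ), (h (y / n) - h 1) * (y ^ m * Real.exp (-y)) =
        (∫ y in Set.Ioi (0:ℝ), h (y / n) * y ^ m * Real.exp (-y)) -
          ∫ y in Set.Ioi (0:ℝ), h 1 * (y ^ m * Real.exp (-y)) := by
      rw [← integral_sub IH (I0.const_mul (h 1))]
      refine setIntegral_congr_fun measurableSet_Ioi fun y _ => ?_
      ring
    rw [this, integral_const_mul, V0]
    field_simp
  rw [e1, abs_mul, abs_of_pos (inv_pos.2 hm0)]
  -- the dominating integral
  have Idom : IntegrableOn (fun y : ℝ => (ε + D) * (y ^ m * Real.exp (-y)) +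
      (-(2 * D / n)) * (y ^ (m + 1) * Real.exp (-y)) +
      D / n ^ 2 * (y ^ (m + 2) * Real.exp (-y))) (Set.Ioi 0) :=
    ((I0.const_mul _).add (I1.const_mul _)).add (I2.const_mul _)
  have h2 : |∫ y in Set.Ioi (0:ℝ), (h (y / n) - h 1) * (y ^ m * Real.exp (-y))| ≤
      ∫ y in Set.Ioi (0:ℝ), ((ε + D) * (y ^ m * Real.exp (-y)) +
      (-(2 * D / n)) * (y ^ (m + 1) * Real.exp (-y)) +
      D / n ^ 2 * (y ^ (m + 2) * Real.exp (-y))) := by
    rw [← Real.norm_eq_abs]
    refine (norm_integral_le_integral_norm _).trans ?_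
    refine setIntegral_mono_on ID.norm Idom measurableSet_Ioi fun y hy => ?_
    have hy0 : (0 : ℝ) < y := hy
    have h1 := hD (y / n) (by positivity)
    rw [Real.norm_eq_abs, abs_mul, abs_mul, abs_of_pos (pow_pos hy0 m),
      abs_of_pos (Real.exp_pos _)]
    calc |h (y / n) - h 1| * (y ^ m * Real.exp (-y)) ≤
          (ε + D * (y / n - 1) ^ 2) * (y ^ m * Real.exp (-y)) := by gcongr
      _ = _ := by
          have e3 : y ^ (m + 1) = y * y ^ m := by ring
          have e4 : y ^ (m + 2) = y ^ 2 * y ^ m := by ring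
          rw [e3, e4]
          field_simp
          ring
  have h3 : ∫ y in Set.Ioi (0:ℝ), ((ε + D) * (y ^ m * Real.exp (-y)) +
      (-(2 * D / n)) * (y ^ (m + 1) * Real.exp (-y)) +
      D / n ^ 2 * (y ^ (m + 2) * Real.exp (-y))) =
      (ε + D) * m.factorial + (-(2 * D / n)) * ((m + 1) * m.factorial) +
        D / n ^ 2 * ((m + 2) * ((m + 1) * m.factorial)) := by
    have J0 : Integrable (fun y : ℝ => (ε + D) * (y ^ m * Real.exp (-y)))
        (volume.restrict (Set.Ioi 0)) := I0.const_mul _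
    have J1 : Integrable (fun y : ℝ => (-(2 * D / n)) * (y ^ (m + 1) * Real.exp (-y)))
        (volume.restrict (Set.Ioi 0)) := I1.const_mul _
    have J2 : Integrable (fun y : ℝ => D / n ^ 2 * (y ^ (m + 2) * Real.exp (-y)))
        (volume.restrict (Set.Ioi 0)) := I2.const_mul _
    have J01 : Integrable (fun y : ℝ => (ε + D) * (y ^ m * Real.exp (-y)) +
      (-(2 * D / n)) * (y ^ (m + 1) * Real.exp (-y))) (volume.restrict (Set.Ioi 0)) := J0.add J1
    rw [integral_add J01 J2, integral_add J0 J1, integral_const_mul, integral_const_mul,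
      integral_const_mul, V0, V1, V2]
  rw [h3] at h2
  calc ((m.factorial : ℝ))⁻¹ *
        |∫ y in Set.Ioi (0:ℝ), (h (y / n) - h 1) * (y ^ m * Real.exp (-y))|
      ≤ ((m.factorial : ℝ))⁻¹ * ((ε + D) * m.factorial + (-(2 * D / n)) * ((m + 1) * m.factorial) +
        D / n ^ 2 * ((m + 2) * ((m + 1) * m.factorial))) := by gcongr
    _ = _ := by
        field_simp
        ring

lemma gc_tendsto (h : ℝ → ℝ) (hm : Measurable h) (C : ℝ)
    (hb : ∀ x, 0 < x → |h x| ≤ C * (1 + x)) (hc : ContinuousAt h 1)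
    (F : ℕ → ℝ) (m : ℕ → ℕ)
    (hF : ∀ᶠ n : ℕ in atTop, F n = (((m n).factorial : ℝ))⁻¹ *
      (∫ y in Set.Ioi (0:ℝ), h (y / n) * y ^ (m n) * Real.exp (-y)))
    (hv : Tendsto (fun n : ℕ => ((m n : ℝ) + 1) * (m n + 2) / n ^ 2 - 2 * (m n + 1) / n + 1)
      atTop (𝓝 0)) :
    Tendsto F atTop (𝓝 (h 1)) := by
  rw [Metric.tendsto_atTop']
  intro ε hε
  obtain ⟨D, hD0, hD⟩ := gc_bound h C hb hc (ε := ε / 3) (by positivity)
  have h1 : Tendsto (fun n : ℕ => D * (((m n : ℝ) + 1) * (m n + 2) / n ^ 2 -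
      2 * (m n + 1) / n + 1)) atTop (𝓝 0) := by
    simpa using hv.const_mul D
  have h2 := h1.eventually (gt_mem_nhds (show (0 : ℝ) < ε / 3 by positivity))
  obtain ⟨N, hN⟩ := eventually_atTop.1 ((hF.and h2).and (eventually_ge_atTop 1))
  refine ⟨N, fun n hn => ?_⟩
  obtain ⟨⟨h3, h4⟩, h5⟩ := hN n hn.le
  rw [Real.dist_eq, h3]
  have h6 := gc_main h hm C hb hD (m n) n h5
  linarith

theorem gamma_conc (h : ℝ → ℝ) (hm : Measurable h) (C : ℝ) (hb : ∀ x, 0 < x → |h x| ≤ C * (1 + x))
    (hc : ContinuousAt h 1) :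
    Tendsto (fun n : ℕ => Eg n (fun y => h (y / n))) atTop (𝓝 (h 1)) ∧
    Tendsto (fun n : ℕ => Eg' n (fun y => h (y / n))) atTop (𝓝 (h 1)) := by
  have t1 : Tendsto (fun n : ℕ => (1 : ℝ) / n) atTop (𝓝 0) := tendsto_one_div_atTop_nhds_zero_nat
  constructor
  · refine gc_tendsto h hm C hb hc _ (fun n => n - 1) ?_ ?_
    · filter_upwards [eventually_ge_atTop 1] with n hn
      unfold Eg
      obtain ⟨k, rfl⟩ : ∃ k, n = k + 1 := ⟨n - 1, by omega⟩
      simp only [add_tsub_cancel_right]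
      congr 2
      push_cast
      exact Real.Gamma_nat_eq_factorial k
    · refine t1.congr' ?_
      filter_upwards [eventually_ge_atTop 1] with n hn
      have hn0 : (0 : ℝ) < n := by
        have : 0 < n := by omega
        exact_mod_cast this
      have e : ((n - 1 : ℕ) : ℝ) = n - 1 := by
        rw [Nat.cast_sub hn, Nat.cast_one]
      rw [e]
      field_simp
      ring
  · refine gc_tendsto h hm C hb hc _ (fun n => n) ?_ ?_
    · refine Eventually.of_forall fun n => ?_
      unfold Eg'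
      rw [Real.Gamma_nat_eq_factorial]
    · have t2 : Tendsto (fun n : ℕ => (1 : ℝ) / n + 2 * ((1 : ℝ) / n) ^ 2) atTop (𝓝 0) := by
        have := t1.add ((t1.pow 2).const_mul 2)
        simpa using this
      refine t2.congr' ?_
      filter_upwards [eventually_ge_atTop 1] with n hn
      have hn0 : (0 : ℝ) < n := by
        have : 0 < n := by omega
        exact_mod_cast this
      field_simp
      ring

end Helper72.BA.P
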