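import Pool.Agent.Helper72.BA.Stubs

/-!
# The ranges of exponents
-/

set_option autoImplicit false

open MeasureTheory Complex FourierTransform Filter Topology
open scoped ENNReal NNReal ComplexConjugate

noncomputable section

namespace Helper72.BA.P

open Helper72.BA

/-! ### the function `log ((1 - x) / x)` -/

lemma nr_deriv {x : ℝ} (h0 : 0 < x) (h1 : x < 1) :
    HasDerivAt (fun x : ℝ => Real.log ((1 - x) / x)) (-(1 / (x * (1 - x)))) x := by
  have h2 : HasDerivAt (fun x : ℝ => (1 - x) / x) ((-1 * x - (1 - x) * 1) / x ^ 2) x := by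
    have h3 : HasDerivAt (fun x : ℝ => 1 - x) (-1) x := by
      simpa using (hasDerivAt_id x).const_sub 1
    exact h3.div (hasDerivAt_id x) h0.ne'
  have h4 : (1 - x) / x ≠ 0 := by
    have : 0 < 1 - x := by linarith
    positivity
  have h5 := h2.log h4
  convert h5 using 1
  have : 0 < 1 - x := by linarith
  field_simp
  ring

lemma nr_mono {a b : ℝ} (ha : 0 < a) (hab : a ≤ b) (hb : b ≤ 1 / 2) :
    1 / (b * (1 - b)) ≤ 1 / (a * (1 - a)) := by
  apply one_div_le_one_div_of_le
  · apply mul_pos ha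
    linarith
  · nlinarith

/-- tangent line inequality -/
lemma nr_tan {x x0 : ℝ} (h0 : 0 < x0) (h0' : x0 ≤ 1 / 2) (hx : 0 < x) (hx' : x ≤ 1 / 2) :
    Real.log ((1 - x0) / x0) - 1 / (x0 * (1 - x0)) * (x - x0) ≤ Real.log ((1 - x) / x) := by
  rcases lt_trichotomy x0 x with h | h | h
  · obtain ⟨c, hc, hc'⟩ := exists_hasDerivAt_eq_slope (fun x : ℝ => Real.log ((1 - x) / x))
      (fun x => -(1 / (x * (1 - x)))) h
      (fun y hy => (nr_deriv (by linarith [hy.1]) (by linarith [hy.2])).continuousAt.continuousWithinAt)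
      (fun y hy => nr_deriv (by linarith [hy.1]) (by linarith [hy.2]))
    have h1 := nr_mono h0 hc.1.le (by linarith [hc.2])
    have h2 : 0 < x - x0 := by linarith
    rw [eq_div_iff h2.ne'] at hc'
    nlinarith
  · subst h
    simp
  · obtain ⟨c, hc, hc'⟩ := exists_hasDerivAt_eq_slope (fun x : ℝ => Real.log ((1 - x) / x))
      (fun x => -(1 / (x * (1 - x)))) h
      (fun y hy => (nr_deriv (by linarith [hy.1]) (by linarith [hy.2])).continuousAt.continuousWithinAt)
      (fun y hy => nr_deriv (by linarith [hy.1]) (by linarith [hy.2]))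
    have h1 := nr_mono (by linarith [hc.1]) hc.2.le h0'
    have h2 : 0 < x0 - x := by linarith
    rw [eq_div_iff h2.ne'] at hc'
    nlinarith

/-! ### numerical facts -/

/-- `log 2.9587` -/
def l2 : ℝ := Real.log 2.9587
/-- `log 4.9313` -/
def l3 : ℝ := Real.log 4.9313
/-- `log 6.9147` -/
def l4 : ℝ := Real.log 6.9147

lemma nr_e1 : (2.7182818283 : ℝ) ≤ Real.exp 1 := Real.exp_one_gt_d9.le
lemma nr_e2 : Real.exp 1 ≤ (2.7182818286 : ℝ) := Real.exp_one_lt_d9.le

lemma nr_log_e (j : ℕ) : Real.log (Real.exp 1 ^ j) = j := by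
  rw [Real.log_pow, Real.log_exp, mul_one]

/-- comparison of powers -/
lemma nr_cmp {a b : ℝ} (ha : 0 < a) (h : a < b) : Real.log a < Real.log b :=
  Real.log_lt_log ha h

lemma nr_a : 354 * l2 < 377 * Real.log 2.77 := by
  unfold l2
  have h := nr_cmp (a := (2.9587 : ℝ) ^ 77) (b := (2.77 : ℝ) ^ 82) (by positivity) (by norm_num)
  rw [Real.log_pow, Real.log_pow] at h
  have h0 : 0 < Real.log 2.77 := Real.log_pos (by norm_num)
  push_cast at h
  linarith

lemma nr_b1 : 54 * l2 + 19 * l3 < 73 * Real.log 3.38 := by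
  unfold l2 l3
  have h := nr_cmp (a := (2.9587 : ℝ) ^ 54 * 4.9313 ^ 19) (b := (3.38 : ℝ) ^ 73)
    (by positivity) (by norm_num)
  rw [Real.log_mul (by positivity) (by positivity), Real.log_pow, Real.log_pow,
    Real.log_pow] at h
  exact_mod_cast h

lemma nr_b2 : 38 * l2 + 143 * l3 < 181 * Real.log 4.43 := by
  unfold l2 l3
  have h := nr_cmp (a := (2.9587 : ℝ) ^ 38 * 4.9313 ^ 143) (b := (4.43 : ℝ) ^ 181)
    (by positivity) (by norm_num)
  rw [Real.log_mul (by positivity) (by positivity), Real.log_pow, Real.log_pow,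
    Real.log_pow] at h
  exact_mod_cast h

lemma nr_s32a : 25 ≤ 49 * (l3 - l2) := by
  unfold l2 l3
  have h0 : (2.9587 : ℝ) ^ 49 * Real.exp 1 ^ 25 < 4.9313 ^ 49 := by
    calc (2.9587 : ℝ) ^ 49 * Real.exp 1 ^ 25 ≤ 2.9587 ^ 49 * 2.7182818286 ^ 25 := by
          gcongr
          exact nr_e2
      _ < _ := by norm_num
  have h := nr_cmp (by positivity) h0
  rw [Real.log_mul (by positivity) (by positivity), nr_log_e, Real.log_pow, Real.log_pow] at h
  push_cast at h
  linarith

lemma nr_s32b : 41 * (l3 - l2) ≤ 21 := by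
  unfold l2 l3
  have h0 : (4.9313 : ℝ) ^ 41 < 2.9587 ^ 41 * Real.exp 1 ^ 21 := by
    calc (4.9313 : ℝ) ^ 41 < 2.9587 ^ 41 * 2.7182818283 ^ 21 := by norm_num
      _ ≤ _ := by
          gcongr
          exact nr_e1
  have h := nr_cmp (by positivity) h0
  rw [Real.log_mul (by positivity) (by positivity), nr_log_e, Real.log_pow, Real.log_pow] at h
  push_cast at h
  linarith

lemma nr_log_sub {y : ℝ} (hy : y < 1) : Real.log (1 - y) ≤ -y := by
  have := Real.log_le_sub_one_of_pos (show 0 < 1 - y by linarith)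
  linarith

lemma nr_c : 3 * l3 + 4 * l4 + 0.02 < 7 * Real.log 6 := by
  unfold l3 l4
  have h0 : (4.9313 : ℝ) ^ 3 * 6.9147 ^ 4 < 6 ^ 7 * (1 - 0.02) := by norm_num
  have h := nr_cmp (by positivity) h0
  rw [Real.log_mul (by positivity) (by positivity), Real.log_mul (by positivity) (by norm_num),
    Real.log_pow, Real.log_pow, Real.log_pow] at h
  have h1 := nr_log_sub (y := 0.02) (by norm_num)
  push_cast at h
  linarith

lemma nr_s43a : 27 ≤ 80 * (l4 - l3) := by
  unfold l3 l4
  have h0 : (4.9313 : ℝ) ^ 80 * Real.exp 1 ^ 27 < 6.9147 ^ 80 := by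
    calc (4.9313 : ℝ) ^ 80 * Real.exp 1 ^ 27 ≤ 4.9313 ^ 80 * 2.7182818286 ^ 27 := by
          gcongr
          exact nr_e2
      _ < _ := by norm_num
  have h := nr_cmp (by positivity) h0
  rw [Real.log_mul (by positivity) (by positivity), nr_log_e, Real.log_pow, Real.log_pow] at h
  push_cast at h
  linarith

lemma nr_s43b : 32 * (l4 - l3) ≤ 11 := by
  unfold l3 l4
  have h0 : (6.9147 : ℝ) ^ 32 < 4.9313 ^ 32 * Real.exp 1 ^ 11 := by
    calc (6.9147 : ℝ) ^ 32 < 4.9313 ^ 32 * 2.7182818283 ^ 11 := by norm_num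
      _ ≤ _ := by
          gcongr
          exact nr_e1
  have h := nr_cmp (by positivity) h0
  rw [Real.log_mul (by positivity) (by positivity), nr_log_e, Real.log_pow, Real.log_pow] at h
  push_cast at h
  linarith

lemma nr_l2a : 77 ≤ 71 * l2 := by
  unfold l2
  have h0 : Real.exp 1 ^ 77 < (2.9587 : ℝ) ^ 71 := by
    calc Real.exp 1 ^ 77 ≤ (2.7182818286 : ℝ) ^ 77 := by
          gcongr
          exact nr_e2
      _ < _ := by norm_num
  have h := nr_cmp (by positivity) h0
  rw [nr_log_e, Real.log_pow] at h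
  push_cast at h
  linarith

lemma nr_l2b : 35 * l2 ≤ 38 := by
  unfold l2
  have h0 : (2.9587 : ℝ) ^ 35 < Real.exp 1 ^ 38 := by
    calc (2.9587 : ℝ) ^ 35 < (2.7182818283 : ℝ) ^ 38 := by norm_num
      _ ≤ _ := by
          gcongr
          exact nr_e1
  have h := nr_cmp (by positivity) h0
  rw [nr_log_e, Real.log_pow] at h
  push_cast at h
  linarith

lemma nr_d : 14 * l2 + 0.0088 < 25 * (Real.log (16 / 9) + Real.log 1.033) := by
  unfold l2
  have h0 : (2.9587 : ℝ) ^ 14 < (16 / 9) ^ 25 * 1.033 ^ 25 * (1 - 0.0088) := by norm_num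
  have h := nr_cmp (by positivity) h0
  rw [Real.log_mul (by positivity) (by norm_num), Real.log_mul (by positivity) (by positivity),
    Real.log_pow, Real.log_pow, Real.log_pow] at h
  have h1 := nr_log_sub (y := 0.0088) (by norm_num)
  push_cast at h
  linarith

lemma nr_e : 23 * l2 + 27 * l3 + 0.034 < 50 * (Real.log (159 / 41) + Real.log 1.006) := by
  unfold l2 l3
  have h0 : (2.9587 : ℝ) ^ 23 * 4.9313 ^ 27 < (159 / 41) ^ 50 * 1.006 ^ 50 * (1 - 0.034) := by
    norm_num
  have h := nr_cmp (by positivity) h0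
  rw [Real.log_mul (by positivity) (by positivity), Real.log_mul (by positivity) (by norm_num),
    Real.log_mul (by positivity) (by positivity), Real.log_pow, Real.log_pow, Real.log_pow,
    Real.log_pow] at h
  have h1 := nr_log_sub (y := 0.034) (by norm_num)
  push_cast at h
  linarith

lemma nr_A2 : Ak 2 ≤ 2.9587 := by
  have h := Ak2_lt
  have e : (2.95870 : ℝ) = 2.9587 := by norm_num
  rw [e] at h
  exact h.le

lemma nr_A3 : Ak 3 ≤ 4.9313 := by
  have h := Ak3_lt
  have e : (4.93130 : ℝ) = 4.9313 := by norm_num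
  rw [e] at h
  exact h.le

/-! ### the final comparison -/

lemma nr_fin {A B a b θ M : ℝ} (hA : 0 < A) (hB : 0 < B) (ha : A ≤ a) (hb : B ≤ b)
    (h0 : 0 ≤ θ) (h1 : θ ≤ 1) (hM : 0 < M)
    (h : (1 - θ) * Real.log a + θ * Real.log b < Real.log M) : A ^ (1 - θ) * B ^ θ < M := by
  have ha0 : 0 < a := hA.trans_le ha
  have hb0 : 0 < b := hB.trans_le hb
  calc A ^ (1 - θ) * B ^ θ ≤ a ^ (1 - θ) * b ^ θ := by
        have h2 : 0 ≤ 1 - θ := by linarith
        gcongr
    _ = Real.exp ((1 - θ) * Real.log a + θ * Real.log b) := by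
        rw [Real.exp_add, Real.rpow_def_of_pos ha0, Real.rpow_def_of_pos hb0,
          mul_comm (Real.log a), mul_comm (Real.log b)]
    _ < Real.exp (Real.log M) := Real.exp_lt_exp.2 h
    _ = M := Real.exp_log hM

lemma nr_inv {p : ℝ} (hp : 0 < p) : (1 - 1 / p) / (1 / p) = p - 1 := by
  field_simp

theorem range_a (p θ : ℝ) (hp : 1 / p = (1 - θ) / 2 + θ / 4) (h1 : 3.77 ≤ p) (h2 : p ≤ 4) :
    Ak 2 ^ θ < p - 1 := by
  have hp0 : 0 < p := by linarith
  set x := 1 / p with hx
  have hθ : θ = 2 - 4 * x := by linarith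
  have hx1 : 1 / 4 ≤ x := one_div_le_one_div_of_le hp0 h2
  have hx2 : x ≤ 100 / 377 := by
    rw [hx, div_le_div_iff₀ hp0 (by norm_num)]
    linarith
  have h3 := nr_tan (x := x) (x0 := 100 / 377) (by norm_num) (by norm_num) (by linarith)
    (by linarith)
  rw [hx, nr_inv hp0, ← hx] at h3
  have e1 : ((1 : ℝ) - 100 / 377) / (100 / 377) = 2.77 := by norm_num
  rw [e1] at h3
  have h4 := nr_a
  have h5 := nr_l2b
  have h6 := nr_fin (A := 1) (B := Ak 2) (a := 1) (b := 2.9587) (θ := θ) (M := p - 1) one_pos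
    (Ak_pos 2 (by norm_num)) le_rfl nr_A2 (by linarith) (by linarith) (by linarith) (by
      rw [Real.log_one]
      change (1 - θ) * 0 + θ * l2 < _
      have h7 : 0 ≤ (100 / 377 - x) * (1 / (100 / 377 * (1 - 100 / 377)) - 4 * l2) := by
        apply mul_nonneg (by linarith)
        norm_num
        linarith
      rw [hθ]
      nlinarith)
  rwa [Real.one_rpow, one_mul] at h6

theorem range_b (p θ : ℝ) (hp : 1 / p = (1 - θ) / 4 + θ / 6)
    (h : (4 ≤ p ∧ p ≤ 4.38) ∨ (5.43 ≤ p ∧ p ≤ 6)) : Ak 2 ^ (1 - θ) * Ak 3 ^ θ < p - 1 := by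
  have hp0 : 0 < p := by rcases h with h | h <;> linarith
  set x := 1 / p with hx
  have hθ : θ = 3 - 12 * x := by linarith
  have h8 := nr_s32a
  have h9 := nr_s32b
  rcases h with ⟨h1, h2⟩ | ⟨h1, h2⟩
  · have hx2 : x ≤ 1 / 4 := one_div_le_one_div_of_le (by norm_num) h1
    have hx1 : 100 / 438 ≤ x := by
      rw [hx, div_le_div_iff₀ (by norm_num) hp0]
      linarith
    have h3 := nr_tan (x := x) (x0 := 100 / 438) (by norm_num) (by norm_num) (by linarith)
      (by linarith)
    rw [hx, nr_inv hp0, ← hx] at h3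
    have e1 : ((1 : ℝ) - 100 / 438) / (100 / 438) = 3.38 := by norm_num
    rw [e1] at h3
    have h4 := nr_b1
    refine nr_fin (Ak_pos 2 (by norm_num)) (Ak_pos 3 (by norm_num)) nr_A2 nr_A3
      (by linarith) (by linarith) (by linarith) ?_
    change (1 - θ) * l2 + θ * l3 < _
    have h7 : 0 ≤ (x - 100 / 438) * (12 * (l3 - l2) - 1 / (100 / 438 * (1 - 100 / 438))) := by
      apply mul_nonneg (by linarith)
      norm_num
      linarith
    rw [hθ]
    nlinarith
  · have hx1 : 1 / 6 ≤ x := one_div_le_one_div_of_le hp0 h2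
    have hx2 : x ≤ 100 / 543 := by
      rw [hx, div_le_div_iff₀ hp0 (by norm_num)]
      linarith
    have h3 := nr_tan (x := x) (x0 := 100 / 543) (by norm_num) (by norm_num) (by linarith)
      (by linarith)
    rw [hx, nr_inv hp0, ← hx] at h3
    have e1 : ((1 : ℝ) - 100 / 543) / (100 / 543) = 4.43 := by norm_num
    rw [e1] at h3
    have h4 := nr_b2
    refine nr_fin (Ak_pos 2 (by norm_num)) (Ak_pos 3 (by norm_num)) nr_A2 nr_A3
      (by linarith) (by linarith) (by linarith) ?_
    change (1 - θ) * l2 + θ * l3 < _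
    have h7 : 0 ≤ (100 / 543 - x) * (1 / (100 / 543 * (1 - 100 / 543)) - 12 * (l3 - l2)) := by
      apply mul_nonneg (by linarith)
      norm_num
      linarith
    rw [hθ]
    nlinarith

/-- excess of the chord of `-log` -/
lemma nr_chord {s t : ℝ} (hs0 : 0 ≤ s) (hs1 : s ≤ 1) (ht : 0 ≤ t) :
    Real.log (1 + s * t) ≤ s * Real.log (1 + t) + s * (1 - s) * t ^ 2 / 2 := by
  have hd : ∀ y : ℝ, 0 ≤ y → HasDerivAt (fun y : ℝ => s * Real.log (1 + y) +
      s * (1 - s) * y ^ 2 / 2 - Real.log (1 + s * y))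
      (s * (1 / (1 + y)) + s * (1 - s) * (2 * y) / 2 - s / (1 + s * y)) y := by
    intro y hy
    have h1 : HasDerivAt (fun y : ℝ => 1 + y) 1 y := by
      simpa using (hasDerivAt_id y).const_add 1
    have h2 : HasDerivAt (fun y : ℝ => 1 + s * y) s y := by
      simpa using ((hasDerivAt_id y).const_mul s).const_add 1
    have h3 := h1.log (by positivity)
    have h4 := h2.log (by positivity)
    have h5 : HasDerivAt (fun y : ℝ => y ^ 2) (2 * y) y := by
      simpa using hasDerivAt_pow 2 y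
    exact ((h3.const_mul s).add ((h5.const_mul (s * (1 - s))).div_const 2)).sub h4
  have hmono : MonotoneOn (fun y : ℝ => s * Real.log (1 + y) +
      s * (1 - s) * y ^ 2 / 2 - Real.log (1 + s * y)) (Set.Ici 0) := by
    apply monotoneOn_of_deriv_nonneg (convex_Ici 0)
    · intro y hy
      exact (hd y hy).continuousAt.continuousWithinAt
    · intro y hy
      rw [interior_Ici] at hy
      exact (hd y (le_of_lt hy)).differentiableAt.differentiableWithinAt
    · intro y hy
      rw [interior_Ici] at hy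
      have hy0 : 0 ≤ y := le_of_lt hy
      rw [(hd y hy0).deriv]
      have e : s * (1 / (1 + y)) + s * (1 - s) * (2 * y) / 2 - s / (1 + s * y) =
          s * (1 - s) * y * (1 - 1 / ((1 + y) * (1 + s * y))) := by
        field_simp
        ring
      rw [e]
      have h1 : 1 / ((1 + y) * (1 + s * y)) ≤ 1 := by
        rw [div_le_one (by positivity)]
        nlinarith [mul_nonneg hs0 hy0]
      have h2 : 0 ≤ 1 - s := by linarith
      have h3 : 0 ≤ 1 - 1 / ((1 + y) * (1 + s * y)) := by linarith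
      positivity
  have h := hmono (Set.mem_Ici.2 le_rfl) (Set.mem_Ici.2 ht) ht
  simp only [add_zero, Real.log_one, mul_zero, ne_eq, OfNat.ofNat_ne_zero, not_false_eq_true,
    zero_pow, zero_div, sub_self] at h
  linarith

theorem range_c (k : ℕ) (hk : 3 ≤ k) (p θ : ℝ) (hp : 1 / p = (1 - θ) / (2 * k) + θ / (2 * k + 2))
    (h1 : 2 * k ≤ p) (h2 : p ≤ 2 * k + 2) : Ak k ^ (1 - θ) * Ak (k + 1) ^ θ < p - 1 := by
  have hk0 : (3 : ℝ) ≤ k := by exact_mod_cast hk
  have hp0 : 0 < p := by linarith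
  set x := 1 / p with hx
  have hxa : x ≤ 1 / (2 * k) := one_div_le_one_div_of_le (by positivity) h1
  have hxb : 1 / (2 * k + 2) ≤ x := one_div_le_one_div_of_le hp0 h2
  have hθx : θ = (1 / (2 * k) - x) * (2 * k * (k + 1)) := by
    rw [hp]
    field_simp
    ring
  have hθ0 : 0 ≤ θ := by
    rw [hθx]
    apply mul_nonneg (by linarith)
    positivity
  have hθ1 : θ ≤ 1 := by
    rw [hθx]
    have h3 : 1 / (2 * (k : ℝ)) - x ≤ 1 / (2 * k * (k + 1)) := by
      have : 1 / (2 * (k : ℝ)) - 1 / (2 * k + 2) = 1 / (2 * k * (k + 1)) := by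
        field_simp
        ring
      linarith
    calc (1 / (2 * (k : ℝ)) - x) * (2 * k * (k + 1)) ≤
          1 / (2 * k * (k + 1)) * (2 * k * (k + 1)) := by gcongr
      _ = 1 := by field_simp
  by_cases hk3 : k = 3
  · subst hk3
    have h3 := nr_tan (x := x) (x0 := 1 / 7) (by norm_num) (by norm_num) (by
      refine lt_of_lt_of_le ?_ hxb
      norm_num) (by
      refine hxa.trans ?_
      norm_num)
    rw [hx, nr_inv hp0, ← hx] at h3
    have e1 : ((1 : ℝ) - 1 / 7) / (1 / 7) = 6 := by norm_num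
    rw [e1] at h3
    push_cast at hxa hxb hθx
    have hθ' : θ = 4 - 24 * x := by
      rw [hθx]
      ring
    have h4 := nr_c
    have h5 := nr_s43a
    have h6 := nr_s43b
    refine nr_fin (Ak_pos 3 (by norm_num)) (Ak_pos 4 (by norm_num)) nr_A3 Ak4_lt.le
      hθ0 hθ1 (by linarith) ?_
    change (1 - θ) * l3 + θ * l4 < _
    rw [hθ']
    norm_num at hxa hxb h3
    set S := 24 * (l4 - l3) - 49 / 6 with hS
    have hS1 : -0.07 ≤ S := by
      rw [hS]
      linarith
    have hS2 : S ≤ 0.09 := by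
      rw [hS]
      linarith
    have key : -0.0027 ≤ S * (x - 1 / 7) := by
      rcases le_total x (1 / 7) with h7 | h7
      · nlinarith
      · nlinarith
    nlinarith
  · have hk4 : 4 ≤ k := by omega
    have hk4' : (4 : ℝ) ≤ k := by exact_mod_cast hk4
    have hA1 := Ak_le k (by omega)
    have hA2 := Ak_le (k + 1) (by omega)
    push_cast at hA2
    refine nr_fin (Ak_pos k (by omega)) (Ak_pos (k + 1) (by omega)) hA1 hA2
      hθ0 hθ1 (by linarith) ?_
    have e5 : Real.log (2 * k * Real.exp (-(1.154 / (2 * k)))) =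
        Real.log (2 * k) + -(1.154 / (2 * k)) := by
      rw [Real.log_mul (by positivity) (by positivity), Real.log_exp]
    have e6 : Real.log (2 * ((k : ℝ) + 1) * Real.exp (-(1.154 / (2 * ((k : ℝ) + 1))))) =
        Real.log (2 * ((k : ℝ) + 1)) + -(1.154 / (2 * ((k : ℝ) + 1))) := by
      rw [Real.log_mul (by positivity) (by positivity), Real.log_exp]
    rw [e5, e6]
    -- in terms of `t = 1 / k`
    set t : ℝ := 1 / k with ht
    have ht0 : 0 < t := by positivity
    have ht4 : t ≤ 1 / 4 := one_div_le_one_div_of_le (by norm_num) hk4'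
    have hx0 : 0 < x := by positivity
    have hb0 : (0 : ℝ) < 2 * (k + 1) := by positivity
    -- chord
    have hch := nr_chord (s := 1 - θ) (t := t) (by linarith) (by linarith) ht0.le
    have ex : x = (1 + (1 - θ) * t) / (2 * (k + 1)) := by
      rw [hp, ht]
      field_simp
      ring
    have e2 : Real.log x = Real.log (1 + (1 - θ) * t) - Real.log (2 * (k + 1)) := by
      rw [ex, Real.log_div (by nlinarith [mul_nonneg (show 0 ≤ 1 - θ by linarith) ht0.le])
        hb0.ne']
    have e3 : Real.log (1 + t) = Real.log (2 * (k + 1)) - Real.log (2 * k) := by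
      rw [← Real.log_div hb0.ne' (by positivity)]
      congr 1
      rw [ht]
      field_simp
    have hs : (1 - θ) * (1 - (1 - θ)) * t ^ 2 / 2 ≤ t ^ 2 / 8 := by
      nlinarith [sq_nonneg ((1 - θ) - 1 / 2), sq_nonneg t]
    -- log (1 - x)
    have hx8 : x ≤ 1 / 8 := by
      refine hxa.trans ?_
      rw [div_le_div_iff₀ (by positivity) (by norm_num)]
      linarith
    have hlog : -x - 0.5596 * x ^ 2 ≤ Real.log (1 - x) := by
      have h3 := Real.abs_log_sub_add_sum_range_le (x := x) (by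
        rw [abs_of_pos hx0]
        linarith) 3
      rw [abs_of_pos hx0] at h3
      simp only [Finset.sum_range_succ, Finset.sum_range_zero] at h3
      have h4 := (abs_le.1 h3).1
      have h5 : x ^ (3 + 1) / (1 - x) ≤ x ^ 2 * (1 / 56) := by
        rw [div_le_iff₀ (by linarith)]
        nlinarith [sq_nonneg x, mul_nonneg (sq_nonneg x) (sub_nonneg.2 hx8)]
      norm_num at h4
      nlinarith [mul_nonneg (sq_nonneg x) (sub_nonneg.2 hx8)]
    have hM : Real.log (p - 1) = Real.log (1 - x) - Real.log x := by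
      rw [← nr_inv hp0, ← hx, Real.log_div (by linarith) hx0.ne']
    rw [hM]
    have e4 : (1 - θ) * (-(1.154 / (2 * k))) + θ * (-(1.154 / (2 * ((k : ℝ) + 1)))) =
        -1.154 * x := by
      rw [hp]
      field_simp
      ring
    have hxt : t / (2 * (1 + t)) ≤ x := by
      refine le_trans (le_of_eq ?_) hxb
      rw [ht]
      field_simp
    have hxt2 : x ≤ t / 2 := by
      refine hxa.trans (le_of_eq ?_)
      rw [ht]
      field_simp
    have hkey : t ^ 2 / 8 < 0.154 * x - 0.5596 * x ^ 2 := by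
      have h3 : t ^ 2 / 8 < t / (2 * (1 + t)) * (0.154 - 0.2798 * t) := by
        rw [div_mul_eq_mul_div, lt_div_iff₀ (by positivity)]
        nlinarith [mul_pos ht0 ht0]
      have h4 : 0 ≤ 0.154 - 0.2798 * t := by linarith
      calc t ^ 2 / 8 < t / (2 * (1 + t)) * (0.154 - 0.2798 * t) := h3
        _ ≤ x * (0.154 - 0.2798 * t) := by gcongr
        _ ≤ x * (0.154 - 0.5596 * x) := by
            apply mul_le_mul_of_nonneg_left _ hx0.le
            linarith
        _ = _ := by ring
    nlinarith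

theorem range_d (p θ : ℝ) (hp : 1 / p = (1 - θ) / 2 + θ / 4) (h1 : 2 < p) (h2 : p ≤ 4) :
    Ak 2 ^ θ < 1.033 * (p - 1) := by
  have hp0 : 0 < p := by linarith
  set x := 1 / p with hx
  have hθ : θ = 2 - 4 * x := by linarith
  have hx1 : 1 / 4 ≤ x := one_div_le_one_div_of_le hp0 h2
  have hx2 : x ≤ 1 / 2 := one_div_le_one_div_of_le (by norm_num) h1.le
  have h3 := nr_tan (x := x) (x0 := 0.36) (by norm_num) (by norm_num) (by linarith)
    (by linarith)
  rw [hx, nr_inv hp0, ← hx] at h3
  have e1 : ((1 : ℝ) - 0.36) / 0.36 = 16 / 9 := by norm_num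
  rw [e1] at h3
  have h4 := nr_d
  have h5 := nr_l2a
  have h5' := nr_l2b
  have h6 := nr_fin (A := 1) (B := Ak 2) (a := 1) (b := 2.9587) (θ := θ) (M := 1.033 * (p - 1))
    one_pos (Ak_pos 2 (by norm_num)) le_rfl nr_A2 (by linarith) (by linarith) (by linarith) (by
      rw [Real.log_one, Real.log_mul (by norm_num) (by linarith)]
      change (1 - θ) * 0 + θ * l2 < _
      rw [hθ]
      norm_num at h3
      set S := 4 * l2 - 625 / 144 with hS
      have hS1 : -0.00226 ≤ S := by
        rw [hS]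
        linarith
      have hS2 : S ≤ 0.0026 := by
        rw [hS]
        linarith
      have key : -0.00035 ≤ S * (x - 0.36) := by
        rcases le_total x 0.36 with h7 | h7
        · nlinarith
        · nlinarith
      nlinarith)
  rwa [Real.one_rpow, one_mul] at h6

theorem range_e (p θ : ℝ) (hp : 1 / p = (1 - θ) / 4 + θ / 6) (h1 : 4 ≤ p) (h2 : p ≤ 6) :
    Ak 2 ^ (1 - θ) * Ak 3 ^ θ < 1.006 * (p - 1) := by
  have hp0 : 0 < p := by linarith
  set x := 1 / p with hx
  have hθ : θ = 3 - 12 * x := by linarith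
  have h8 := nr_s32a
  have h9 := nr_s32b
  have hx2 : x ≤ 1 / 4 := one_div_le_one_div_of_le (by norm_num) h1
  have hx1 : 1 / 6 ≤ x := one_div_le_one_div_of_le hp0 h2
  have h3 := nr_tan (x := x) (x0 := 0.205) (by norm_num) (by norm_num) (by linarith)
    (by linarith)
  rw [hx, nr_inv hp0, ← hx] at h3
  have e1 : ((1 : ℝ) - 0.205) / 0.205 = 159 / 41 := by norm_num
  rw [e1] at h3
  have h4 := nr_e
  refine nr_fin (Ak_pos 2 (by norm_num)) (Ak_pos 3 (by norm_num)) nr_A2 nr_A3
    (by linarith) (by linarith) (by linarith) ?_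
  rw [Real.log_mul (by norm_num) (by linarith)]
  change (1 - θ) * l2 + θ * l3 < _
  rw [hθ]
  norm_num at h3
  set S := 12 * (l3 - l2) - 40000 / 6519 with hS
  have hS1 : -0.0136 ≤ S := by
    rw [hS]
    linarith
  have hS2 : S ≤ 0.0106 := by
    rw [hS]
    linarith
  have key : -0.00065 ≤ S * (x - 0.205) := by
    rcases le_total x 0.205 with h7 | h7
    · nlinarith
    · nlinarith
  nlinarith

end Helper72.BA.P
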