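import Pool.Agent.Helper85.BP.Defs

/-!
Module Zb of the extension of MP_3dd6d4_an to all real exponents: chords.
-/

set_option autoImplicit false

open MeasureTheory Complex FourierTransform Filter Topology
open scoped ENNReal NNReal ComplexConjugate

noncomputable section

namespace Helper85.BP.P

open Helper72.BA Helper85.BP

/-- partial sums of the series of `2 artanh y` -/
private lemma Zb_series (y : ℝ) (h0 : 0 ≤ y) (h1 : y < 1) (n : ℕ) :
    ∑ k ∈ Finset.range n, (2 : ℝ) * (1 / (2 * (k : ℝ) + 1)) * y ^ (2 * k + 1) ≤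
      Real.log (1 + y) - Real.log (1 - y) := by
  have h := Real.hasSum_log_sub_log_of_abs_lt_one (x := y) (by rw [abs_of_nonneg h0]; exact h1)
  exact sum_le_hasSum _ (fun k _ => by positivity) h

private lemma Zb_tangent (a b t0 t : ℝ) (hba : b ≤ a) (hb : 1 < b) (h0 : 0 ≤ t0) (h01 : t0 ≤ 1)
    (ht : 0 ≤ t) (ht1 : t ≤ 1) :
    Real.log (a + t0) - Real.log (b - t0) + (1 / (a + t0) + 1 / (b - t0)) * (t - t0) ≤
      Real.log (a + t) - Real.log (b - t) := by
  set c := 1 / (a + t0) + 1 / (b - t0) with hc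
  have hd : ∀ x : ℝ, 0 ≤ x → x ≤ 1 →
      HasDerivAt (fun x => Real.log (a + x) - Real.log (b - x) - c * x)
        (1 / (a + x) - (-1) / (b - x) - c * 1) x := by
    intro x hx hx1
    have h1 : a + x ≠ 0 := by linarith
    have h2 : b - x ≠ 0 := by linarith
    have d1 : HasDerivAt (fun x : ℝ => a + x) 1 x := (hasDerivAt_id x).const_add a
    have d2 : HasDerivAt (fun x : ℝ => b - x) (-1) x := (hasDerivAt_id x).const_sub b
    exact ((d1.log h1).sub (d2.log h2)).sub ((hasDerivAt_id x).const_mul c)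
  have hval : ∀ x : ℝ, 0 ≤ x → x ≤ 1 →
      1 / (a + x) - (-1) / (b - x) - c * 1 =
        (a + b) * ((x - t0) * (a - b + x + t0)) /
          (((a + x) * (b - x)) * ((a + t0) * (b - t0))) := by
    intro x hx hx1
    have h1 : a + x ≠ 0 := by linarith
    have h2 : b - x ≠ 0 := by linarith
    have h3 : a + t0 ≠ 0 := by linarith
    have h4 : b - t0 ≠ 0 := by linarith
    rw [hc]
    field_simp
    ring
  have hden : ∀ x : ℝ, 0 ≤ x → x ≤ 1 → 0 < ((a + x) * (b - x)) * ((a + t0) * (b - t0)) := by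
    intro x hx hx1
    have h1 : 0 < a + x := by linarith
    have h2 : 0 < b - x := by linarith
    have h3 : 0 < a + t0 := by linarith
    have h4 : 0 < b - t0 := by linarith
    positivity
  rcases lt_trichotomy t0 t with hlt | heq | hgt
  · obtain ⟨ξ, hξ, hξe⟩ := exists_hasDerivAt_eq_slope
      (fun x => Real.log (a + x) - Real.log (b - x) - c * x)
      (fun x => 1 / (a + x) - (-1) / (b - x) - c * 1) hlt
      (fun x hx => (hd x (by linarith [hx.1]) (by linarith [hx.2])).continuousAt.continuousWithinAt)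
      (fun x hx => hd x (by linarith [hx.1]) (by linarith [hx.2]))
    have hξ0 : 0 ≤ ξ := by linarith [hξ.1]
    have hξ1 : ξ ≤ 1 := by linarith [hξ.2]
    rw [hval ξ hξ0 hξ1] at hξe
    have hpos : 0 ≤ (a + b) * ((ξ - t0) * (a - b + ξ + t0)) /
        (((a + ξ) * (b - ξ)) * ((a + t0) * (b - t0))) := by
      refine div_nonneg ?_ (hden ξ hξ0 hξ1).le
      have : 0 ≤ ξ - t0 := by linarith [hξ.1]
      have : 0 ≤ a - b + ξ + t0 := by linarith
      have : 0 ≤ a + b := by linarith
      positivity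
    rw [hξe, le_div_iff₀ (by linarith)] at hpos
    nlinarith
  · subst heq
    rw [sub_self, mul_zero, add_zero]
  · obtain ⟨ξ, hξ, hξe⟩ := exists_hasDerivAt_eq_slope
      (fun x => Real.log (a + x) - Real.log (b - x) - c * x)
      (fun x => 1 / (a + x) - (-1) / (b - x) - c * 1) hgt
      (fun x hx => (hd x (by linarith [hx.1]) (by linarith [hx.2])).continuousAt.continuousWithinAt)
      (fun x hx => hd x (by linarith [hx.1]) (by linarith [hx.2]))
    have hξ0 : 0 ≤ ξ := by linarith [hξ.1]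
    have hξ1 : ξ ≤ 1 := by linarith [hξ.2]
    rw [hval ξ hξ0 hξ1] at hξe
    have hneg : (a + b) * ((ξ - t0) * (a - b + ξ + t0)) /
        (((a + ξ) * (b - ξ)) * ((a + t0) * (b - t0))) ≤ 0 := by
      refine div_nonpos_of_nonpos_of_nonneg ?_ (hden ξ hξ0 hξ1).le
      have h1 : 0 ≤ t0 - ξ := by linarith [hξ.2]
      have h2 : 0 ≤ a - b + ξ + t0 := by linarith
      have h3 : 0 ≤ a + b := by linarith
      have : 0 ≤ (a + b) * ((t0 - ξ) * (a - b + ξ + t0)) := by positivity
      nlinarith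
    rw [hξe, div_le_iff₀ (by linarith)] at hneg
    nlinarith

/-- chord below the graph: check at the two ends of a tangent -/
private lemma Zb_gen (a b t0 α β : ℝ) (y : ℝ) (n : ℕ) (hba : b ≤ a) (hb : 1 < b) (h0 : 0 ≤ t0)
    (h01 : t0 ≤ 1) (hy0 : 0 ≤ y) (hy1 : y < 1) (hy : (1 + y) * (b - t0) = (a + t0) * (1 - y))
    (hα : α < ∑ k ∈ Finset.range n, (2 : ℝ) * (1 / (2 * (k : ℝ) + 1)) * y ^ (2 * k + 1) -
      (1 / (a + t0) + 1 / (b - t0)) * t0)
    (hβ : β < ∑ k ∈ Finset.range n, (2 : ℝ) * (1 / (2 * (k : ℝ) + 1)) * y ^ (2 * k + 1) +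
      (1 / (a + t0) + 1 / (b - t0)) * (1 - t0))
    (t : ℝ) (ht : 0 ≤ t) (ht1 : t ≤ 1) :
    Real.exp (α * (1 - t) + β * t) < (a + t) / (b - t) := by
  have hs := Zb_series y hy0 hy1 n
  have e1 : Real.log (1 + y) - Real.log (1 - y) = Real.log (a + t0) - Real.log (b - t0) := by
    rw [← Real.log_div (by linarith) (by linarith), ← Real.log_div (by linarith) (by linarith)]
    congr 1
    rw [div_eq_div_iff (by linarith) (by linarith)]
    exact hy
  rw [e1] at hs
  have htan := Zb_tangent a b t0 t hba hb h0 h01 ht ht1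
  set L := Real.log (a + t0) - Real.log (b - t0) with hL
  set c := 1 / (a + t0) + 1 / (b - t0) with hc
  have hlog : Real.log ((a + t) / (b - t)) = Real.log (a + t) - Real.log (b - t) :=
    Real.log_div (by linarith) (by linarith)
  have hpos : 0 < (a + t) / (b - t) := div_pos (by linarith) (by linarith)
  rw [← Real.lt_log_iff_exp_lt hpos, hlog]
  refine lt_of_lt_of_le ?_ htan
  have hα' : α < L - c * t0 := lt_of_lt_of_le hα (by linarith)
  have hβ' : β < L + c * (1 - t0) := lt_of_lt_of_le hβ (by linarith)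
  rcases lt_or_eq_of_le ht1 with h | h
  · have h1 : α * (1 - t) < (L - c * t0) * (1 - t) := mul_lt_mul_of_pos_right hα' (by linarith)
    have h2 : β * t ≤ (L + c * (1 - t0)) * t := mul_le_mul_of_nonneg_right hβ'.le ht
    nlinarith
  · subst h
    linarith

theorem chord_a (p t : ℝ) (ht0 : 0 < t) (ht1 : t ≤ 1) (hp : 1 / p = (1 - t) / 2 + t * (7 / 16)) :
    Real.exp (0.2497 * t) < p - 1 := by
  have hx : 0 < 8 - t := by linarith
  have hpe : p = 16 / (8 - t) := by
    have h1 : (1 - t) / 2 + t * (7 / 16) = (8 - t) / 16 := by ring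
    rw [h1] at hp
    rw [← one_div_one_div p, hp, one_div_div]
  have hp1 : p - 1 = (8 + t) / (8 - t) := by
    rw [hpe]; field_simp; ring
  rw [hp1]
  have hs := Zb_series (t / 8) (by positivity) (by linarith) 1
  have e1 : Real.log (1 + t / 8) - Real.log (1 - t / 8) = Real.log ((8 + t) / (8 - t)) := by
    rw [← Real.log_div (by linarith) (by linarith)]
    congr 1
    rw [div_eq_div_iff (by linarith) (by linarith)]
    ring
  rw [e1] at hs
  norm_num at hs
  rw [← Real.lt_log_iff_exp_lt (by positivity)]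
  linarith

theorem chord_b (p t : ℝ) (ht0 : 0 ≤ t) (ht1 : t ≤ 1)
    (hp : 1 / p = (1 - t) * (7 / 16) + t * (3 / 8)) :
    Real.exp (0.2497 * (1 - t) + 0.5068 * t) < p - 1 := by
  have hx : 0 < 7 - t := by linarith
  have hp1 : p - 1 = (9 + t) / (7 - t) := by
    have h1 : (1 - t) * (7 / 16) + t * (3 / 8) = (7 - t) / 16 := by ring
    rw [h1] at hp
    rw [← one_div_one_div p, hp, one_div_div]
    field_simp; ring
  rw [hp1]
  refine Zb_gen 9 7 (2 / 5) 0.2497 0.5068 (7 / 40) 3 (by norm_num) (by norm_num) (by norm_num)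
    (by norm_num) (by norm_num) (by norm_num) (by norm_num) ?_ ?_ t ht0 ht1
  · norm_num [Finset.sum_range_succ]
  · norm_num [Finset.sum_range_succ]

theorem chord_c (p t : ℝ) (ht0 : 0 ≤ t) (ht1 : t ≤ 1)
    (hp : 1 / p = (1 - t) * (3 / 8) + t * (5 / 16)) :
    Real.exp (0.5068 * (1 - t) + 0.7810 * t) < p - 1 := by
  have hx : 0 < 6 - t := by linarith
  have hp1 : p - 1 = (10 + t) / (6 - t) := by
    have h1 : (1 - t) * (3 / 8) + t * (5 / 16) = (6 - t) / 16 := by ring
    rw [h1] at hp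
    rw [← one_div_one_div p, hp, one_div_div]
    field_simp; ring
  rw [hp1]
  refine Zb_gen 10 6 (1 / 2) 0.5068 0.7810 (5 / 16) 4 (by norm_num) (by norm_num) (by norm_num)
    (by norm_num) (by norm_num) (by norm_num) (by norm_num) ?_ ?_ t ht0 ht1
  · norm_num [Finset.sum_range_succ]
  · norm_num [Finset.sum_range_succ]

theorem chord_d (p t : ℝ) (ht0 : 0 ≤ t) (ht1 : t ≤ 1)
    (hp : 1 / p = (1 - t) * (5 / 16) + t * (1 / 4)) :
    Real.exp (0.7810 * (1 - t) + 1.0848 * t) < p - 1 := by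
  have hx : 0 < 5 - t := by linarith
  have hp1 : p - 1 = (11 + t) / (5 - t) := by
    have h1 : (1 - t) * (5 / 16) + t * (1 / 4) = (5 - t) / 16 := by ring
    rw [h1] at hp
    rw [← one_div_one_div p, hp, one_div_div]
    field_simp; ring
  rw [hp1]
  refine Zb_gen 11 5 (1 / 2) 0.7810 1.0848 (7 / 16) 5 (by norm_num) (by norm_num) (by norm_num)
    (by norm_num) (by norm_num) (by norm_num) (by norm_num) ?_ ?_ t ht0 ht1
  · norm_num [Finset.sum_range_succ]
  · norm_num [Finset.sum_range_succ]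

theorem chord_e (p t : ℝ) (ht0 : 0 ≤ t) (ht1 : t ≤ 1)
    (hp : 1 / p = (1 - t) * (1 / 4) + t * (5 / 24)) :
    Real.exp (1.0848 * (1 - t) + 1.3322 * t) < p - 1 := by
  have hx : 0 < 6 - t := by linarith
  have hp1 : p - 1 = (18 + t) / (6 - t) := by
    have h1 : (1 - t) * (1 / 4) + t * (5 / 24) = (6 - t) / 24 := by ring
    rw [h1] at hp
    rw [← one_div_one_div p, hp, one_div_div]
    field_simp; ring
  rw [hp1]
  refine Zb_gen 18 6 (3 / 4) 1.0848 1.3322 (9 / 16) 7 (by norm_num) (by norm_num) (by norm_num)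
    (by norm_num) (by norm_num) (by norm_num) (by norm_num) ?_ ?_ t ht0 ht1
  · norm_num [Finset.sum_range_succ]
  · norm_num [Finset.sum_range_succ]

theorem chord_f (p t : ℝ) (ht0 : 0 ≤ t) (ht1 : t ≤ 1)
    (hp : 1 / p = (1 - t) * (5 / 24) + t * (1 / 6)) :
    Real.exp (1.3322 * (1 - t) + 1.5957 * t) < p - 1 := by
  have hx : 0 < 5 - t := by linarith
  have hp1 : p - 1 = (19 + t) / (5 - t) := by
    have h1 : (1 - t) * (5 / 24) + t * (1 / 6) = (5 - t) / 24 := by ring
    rw [h1] at hp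
    rw [← one_div_one_div p, hp, one_div_div]
    field_simp; ring
  rw [hp1]
  refine Zb_gen 19 5 (3 / 10) 1.3322 1.5957 (73 / 120) 8 (by norm_num) (by norm_num) (by norm_num)
    (by norm_num) (by norm_num) (by norm_num) (by norm_num) ?_ ?_ t ht0 ht1
  · norm_num [Finset.sum_range_succ]
  · norm_num [Finset.sum_range_succ]

end Helper85.BP.P
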