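import Mathlib

set_option autoImplicit false

/-!
Definitions for the leapfrog problem: legal jumps of pieces in Euclidean three-space, similar
copies, and the vertex sets of the regular icosahedron and the regular dodecahedron.
-/

namespace Pool.Agent.Helper21.Leap

open Real

/-- Euclidean three-space. -/
abbrev E3 : Type := EuclideanSpace ℝ (Fin 3)

/-- `s` is a similarity of Euclidean three-space with ratio `r`: it multiplies all distances by the
positive real `r`. -/
def IsSimilarity (s : E3 → E3) (r : ℝ) : Prop :=
  0 < r ∧ ∀ x y : E3, dist (s x) (s y) = r * dist x y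

/-- A legal move of `n` pieces: some piece `i` leaps over another piece `j`, so that its position
`p i` becomes the point reflection `2 p j - p i`, and all the other pieces stay. -/
def Jump {n : ℕ} (p q : Fin n → E3) : Prop :=
  ∃ i j : Fin n, i ≠ j ∧ q = Function.update p i ((2 : ℝ) • p j - p i)

/-- `T` can be enlarged: start with one piece at each point of `T` (positions `p`); some finite
sequence of legal moves leads to positions `q` which fill the image of `T` under a similarity of
ratio larger than one. -/
def CanBeEnlarged (T : Set E3) : Prop :=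
  ∃ (n : ℕ) (p q : Fin n → E3), Function.Injective p ∧ Set.range p = T ∧
    Relation.ReflTransGen Jump p q ∧
    ∃ (s : E3 → E3) (r : ℝ), 1 < r ∧ IsSimilarity s r ∧ Set.range q = s '' T

/-- The twelve vertices of the standard regular icosahedron: the cyclic permutations of
`(0, ±1, ±φ)`. -/
def icosahedron : Set E3 :=
  {x | ∃ a b : ℝ, (a = 1 ∨ a = -1) ∧ (b = 1 ∨ b = -1) ∧
    (x = !₂[0, a, b * goldenRatio] ∨ x = !₂[a, b * goldenRatio, 0] ∨
      x = !₂[b * goldenRatio, 0, a])}

/-- The twenty vertices of the standard regular dodecahedron: `(±1, ±1, ±1)` and the cyclic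
permutations of `(0, ±φ⁻¹, ±φ)`. -/
def dodecahedron : Set E3 :=
  {x | ∃ a b c : ℝ, (a = 1 ∨ a = -1) ∧ (b = 1 ∨ b = -1) ∧ (c = 1 ∨ c = -1) ∧
    (x = !₂[a, b, c] ∨ x = !₂[0, a * goldenRatio⁻¹, b * goldenRatio] ∨
      x = !₂[a * goldenRatio⁻¹, b * goldenRatio, 0] ∨
      x = !₂[b * goldenRatio, 0, a * goldenRatio⁻¹])}

/-- `T` is the vertex set of a regular icosahedron (of any size, place and orientation). -/
def IsRegularIcosahedron (T : Set E3) : Prop :=
  ∃ (s : E3 → E3) (r : ℝ), IsSimilarity s r ∧ T = s '' icosahedron

/-- `T` is the vertex set of a regular dodecahedron (of any size, place and orientation). -/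
def IsRegularDodecahedron (T : Set E3) : Prop :=
  ∃ (s : E3 → E3) (r : ℝ), IsSimilarity s r ∧ T = s '' dodecahedron

end Pool.Agent.Helper21.Leap
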