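import Pool.Agent.Helper21.LeapDefs

set_option autoImplicit false

/-!
Enlarging the regular dodecahedron and the regular icosahedron by leapfrog jumps: the proof.

The vertices of both solids lie in `Z[phi]^3`, a free abelian group of rank six.  An explicit list of
59 jumps (icosahedron) and 113 jumps (dodecahedron) carries the pieces onto the image of the solid
under the homothety of ratio `phi ^ 3 = 2 + sqrt 5` centred at one of its vertices.  The lists are
checked by kernel evaluation on integer coordinates and transported to Euclidean space.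
-/

namespace Pool.Agent.Helper21.Leap

open Real

/-! ### Integer coordinates -/

/-- Integer coordinates of points of `Z[φ]^3`. -/
abbrev Z6 : Type := ℤ × ℤ × ℤ × ℤ × ℤ × ℤ

/-- The point with the given coordinates. -/
noncomputable def emb (v : Z6) : E3 :=
  !₂[(v.1 : ℝ) + v.2.1 * goldenRatio, (v.2.2.1 : ℝ) + v.2.2.2.1 * goldenRatio,
    (v.2.2.2.2.1 : ℝ) + v.2.2.2.2.2 * goldenRatio]

/-- `2 b - a` in integer coordinates. -/
def refl (a b : Z6) : Z6 :=
  (2 * b.1 - a.1, 2 * b.2.1 - a.2.1, 2 * b.2.2.1 - a.2.2.1, 2 * b.2.2.2.1 - a.2.2.2.1,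
    2 * b.2.2.2.2.1 - a.2.2.2.2.1, 2 * b.2.2.2.2.2 - a.2.2.2.2.2)

/-- `c + φ ^ 3 (a - c)` in integer coordinates. -/
def blow (c a : Z6) : Z6 :=
  (c.1 + ((a.1 - c.1) + 2 * (a.2.1 - c.2.1)),
   c.2.1 + (2 * (a.1 - c.1) + 3 * (a.2.1 - c.2.1)),
   c.2.2.1 + ((a.2.2.1 - c.2.2.1) + 2 * (a.2.2.2.1 - c.2.2.2.1)),
   c.2.2.2.1 + (2 * (a.2.2.1 - c.2.2.1) + 3 * (a.2.2.2.1 - c.2.2.2.1)),
   c.2.2.2.2.1 + ((a.2.2.2.2.1 - c.2.2.2.2.1) + 2 * (a.2.2.2.2.2 - c.2.2.2.2.2)),
   c.2.2.2.2.2 + (2 * (a.2.2.2.2.1 - c.2.2.2.2.1) + 3 * (a.2.2.2.2.2 - c.2.2.2.2.2)))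

/-- Run a list of jumps on a list of integer positions. -/
def run : List Z6 → List (ℕ × ℕ) → List Z6
  | L, [] => L
  | L, (i, j) :: ms => run (L.set i (refl (L.getD i 0) (L.getD j 0))) ms

theorem run_length (ms : List (ℕ × ℕ)) : ∀ L : List Z6, (run L ms).length = L.length := by
  induction ms with
  | nil => intro L; rfl
  | cons m ms ih => intro L; obtain ⟨i, j⟩ := m; simp [run, ih]

theorem emb_refl (a b : Z6) : emb (refl a b) = (2 : ℝ) • emb b - emb a := by
  ext k
  fin_cases k <;> simp [emb, refl] <;> ring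

theorem emb_blow (c a : Z6) :
    emb (blow c a) = AffineMap.homothety (emb c) (goldenRatio ^ 3) (emb a) := by
  have h3 : goldenRatio ^ 3 = 2 * goldenRatio + 1 := by
    have := goldenRatio_sq
    calc goldenRatio ^ 3 = goldenRatio ^ 2 * goldenRatio := by ring
      _ = 2 * goldenRatio + 1 := by rw [this]; linear_combination this
  have h2 := goldenRatio_sq
  rw [h3]
  ext k
  fin_cases k
  · simp [emb, blow]
    linear_combination (-2 * ((a.2.1 : ℝ) - c.2.1)) * h2
  · simp [emb, blow]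
    linear_combination (-2 * ((a.2.2.2.1 : ℝ) - c.2.2.2.1)) * h2
  · simp [emb, blow]
    linear_combination (-2 * ((a.2.2.2.2.2 : ℝ) - c.2.2.2.2.2)) * h2

/-- The positions given by a list. -/
noncomputable def conf (L : List Z6) (n : ℕ) : Fin n → E3 := fun i => emb (L.getD i 0)

theorem jump_conf (n : ℕ) (L : List Z6) (hL : L.length = n) (i j : ℕ) (hi : i < n) (hj : j < n)
    (hij : i ≠ j) :
    Jump (conf L n) (conf (L.set i (refl (L.getD i 0) (L.getD j 0))) n) := by
  refine ⟨⟨i, hi⟩, ⟨j, hj⟩, ?_, ?_⟩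
  · intro h; exact hij (congrArg Fin.val h)
  · funext k
    by_cases hk : k = ⟨i, hi⟩
    · subst hk
      have : i < L.length := by omega
      simp [conf, Function.update_self, emb_refl, List.getD_eq_getElem?_getD, this]
    · have hk' : i ≠ (k : ℕ) := fun h => hk (Fin.ext h.symm)
      simp [conf, Function.update_of_ne hk, List.getD_eq_getElem?_getD, List.getElem?_set_ne hk']

theorem run_reach (n : ℕ) (ms : List (ℕ × ℕ)) :
    ∀ L : List Z6, L.length = n → (∀ m ∈ ms, m.1 < n ∧ m.2 < n ∧ m.1 ≠ m.2) →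
      Relation.ReflTransGen Jump (conf L n) (conf (run L ms) n) := by
  induction ms with
  | nil => intro L _ _; exact Relation.ReflTransGen.refl
  | cons m ms ih =>
    intro L hL hm
    obtain ⟨i, j⟩ := m
    have h1 := hm (i, j) (by simp)
    refine Relation.ReflTransGen.head (jump_conf n L hL i j h1.1 h1.2.1 h1.2.2) ?_
    exact ih _ (by simpa using hL) (fun m' hm' => hm m' (by simp [hm']))

/-! ### Similarities are affine -/

theorem IsSimilarity.affine {s : E3 → E3} {r : ℝ} (h : IsSimilarity s r) :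
    ∃ f : E3 →ᵃ[ℝ] E3, ∀ x, s x = f x := by
  obtain ⟨hr, hs⟩ := h
  have hiso : Isometry (fun x => r⁻¹ • s x) := by
    refine Isometry.of_dist_eq (fun x y => ?_)
    rw [dist_smul₀, hs, norm_inv, Real.norm_of_nonneg hr.le]
    field_simp
  refine ⟨r • hiso.affineIsometryOfStrictConvexSpace.toAffineMap, fun x => ?_⟩
  simp [smul_smul, hr.ne']

theorem affine_reflect (f : E3 →ᵃ[ℝ] E3) (a b : E3) :
    f ((2 : ℝ) • b - a) = (2 : ℝ) • f b - f a := by
  have h1 : (2 : ℝ) • b - a = AffineMap.lineMap a b (2 : ℝ) := by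
    rw [AffineMap.lineMap_apply_module]; module
  have h2 : (2 : ℝ) • f b - f a = AffineMap.lineMap (f a) (f b) (2 : ℝ) := by
    rw [AffineMap.lineMap_apply_module]; module
  rw [h1, h2, AffineMap.apply_lineMap]

theorem affine_homothety (f : E3 →ᵃ[ℝ] E3) (c a : E3) (t : ℝ) :
    f (AffineMap.homothety c t a) = AffineMap.homothety (f c) t (f a) := by
  rw [AffineMap.homothety_eq_lineMap, AffineMap.homothety_eq_lineMap, AffineMap.apply_lineMap]

theorem jump_map (f : E3 →ᵃ[ℝ] E3) {n : ℕ} {p q : Fin n → E3} (h : Jump p q) :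
    Jump (fun i => f (p i)) (fun i => f (q i)) := by
  obtain ⟨i, j, hij, rfl⟩ := h
  refine ⟨i, j, hij, ?_⟩
  funext k
  by_cases hk : k = i
  · subst hk; simp [affine_reflect]
  · simp [Function.update_of_ne hk]

theorem reach_map (f : E3 →ᵃ[ℝ] E3) {n : ℕ} {p q : Fin n → E3}
    (h : Relation.ReflTransGen Jump p q) :
    Relation.ReflTransGen Jump (fun i => f (p i)) (fun i => f (q i)) := by
  induction h with
  | refl => exact Relation.ReflTransGen.refl
  | tail _ h2 ih => exact Relation.ReflTransGen.tail ih (jump_map f h2)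

theorem isSimilarity_homothety (c : E3) (r : ℝ) (hr : 0 < r) :
    IsSimilarity (AffineMap.homothety c r) r := by
  refine ⟨hr, fun x y => ?_⟩
  have : AffineMap.homothety c r x - AffineMap.homothety c r y = r • (x - y) := by
    simp only [AffineMap.homothety_apply, vsub_eq_sub, vadd_eq_add]; module
  rw [dist_eq_norm, this, norm_smul, Real.norm_of_nonneg hr.le, dist_eq_norm]

theorem one_lt_cube : 1 < goldenRatio ^ 3 := by
  have h := one_lt_goldenRatio
  exact one_lt_pow₀ h (by norm_num)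

/-- Main reduction: a checked list of jumps enlarges every similar copy of the solid. -/
theorem enlarge_of_run (n : ℕ) (L : List Z6) (ms : List (ℕ × ℕ)) (hn : L.length = n)
    (hms : ∀ m ∈ ms, m.1 < n ∧ m.2 < n ∧ m.1 ≠ m.2)
    (hrun : run L ms = L.map (blow (L.getD 0 0)))
    (T₀ : Set E3) (hT₀ : Set.range (conf L n) = T₀) (hinj : Function.Injective (conf L n))
    (T : Set E3) (hT : ∃ (s : E3 → E3) (r : ℝ), IsSimilarity s r ∧ T = s '' T₀) :
    CanBeEnlarged T := by
  obtain ⟨s, r, hs, rfl⟩ := hT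
  obtain ⟨f, hf⟩ := hs.affine
  have hsinj : Function.Injective s := by
    intro x y hxy
    have h1 := hs.2 x y
    rw [hxy, dist_self] at h1
    have h2 : dist x y = 0 := by
      rcases mul_eq_zero.mp h1.symm with h | h
      · exact absurd h hs.1.ne'
      · exact h
    exact dist_eq_zero.mp h2
  have hrun' : ∀ i : Fin n, conf (run L ms) n i
      = AffineMap.homothety (emb (L.getD 0 0)) (goldenRatio ^ 3) (conf L n i) := by
    intro i
    have hi : (i : ℕ) < L.length := by omega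
    simp only [conf]
    rw [hrun, ← emb_blow]
    congr 1
    simp [List.getD_eq_getElem?_getD, hi]
  refine ⟨n, fun i => f (conf L n i), fun i => f (conf (run L ms) n i), ?_, ?_,
    reach_map f (run_reach n ms L hn hms), AffineMap.homothety (f (emb (L.getD 0 0))) (goldenRatio ^ 3),
    goldenRatio ^ 3, one_lt_cube, isSimilarity_homothety _ _ (by positivity), ?_⟩
  · intro i j hij
    simp only [← hf] at hij
    exact hinj (hsinj hij)
  · rw [← hT₀, ← Set.range_comp]
    congr 1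
    funext i
    exact (hf _).symm
  · rw [← hT₀, ← Set.range_comp, ← Set.range_comp]
    congr 1
    funext i
    simp only [Function.comp]
    rw [hrun' i, affine_homothety, hf]

/-- Integer coordinates of the icosahedron vertices. -/
def icoV : List Z6 :=
  [
   (0, 0, 1, 0, 0, 1), (1, 0, 0, 1, 0, 0), (0, 1, 0, 0, 1, 0), (0, 0, 1, 0, 0, -1),
   (1, 0, 0, -1, 0, 0), (0, -1, 0, 0, 1, 0), (0, 0, -1, 0, 0, 1), (-1, 0, 0, 1, 0, 0),
   (0, 1, 0, 0, -1, 0), (0, 0, -1, 0, 0, -1), (-1, 0, 0, -1, 0, 0), (0, -1, 0, 0, -1, 0)]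

/-- The 59 jumps for the icosahedron; `(i, j)` means that piece `i` leaps over piece `j`. -/
def icoM : List (ℕ × ℕ) :=
  [
   (9, 0), (9, 11), (5, 0), (5, 11), (7, 0), (7, 11), (11, 6), (11, 0), (9, 6), (9, 0),
   (7, 6), (7, 0), (6, 1), (6, 0), (11, 0), (11, 1), (5, 1), (5, 0), (1, 0), (1, 6),
   (11, 0), (6, 0), (6, 9), (1, 0), (1, 9), (11, 0), (11, 9), (9, 0), (9, 1), (9, 5),
   (9, 0), (1, 5), (1, 0), (9, 7), (9, 0), (6, 7), (6, 0), (2, 11), (2, 5), (2, 11),
   (2, 7), (2, 0), (2, 9), (3, 6), (3, 5), (3, 11), (3, 9), (4, 7), (4, 5), (4, 0),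
   (4, 1), (8, 5), (8, 6), (8, 0), (8, 7), (10, 1), (10, 7), (10, 11), (10, 9)]

/-- Integer coordinates of the dodecahedron vertices. -/
def dodV : List Z6 :=
  [
   (1, 0, 1, 0, 1, 0), (1, 0, 1, 0, -1, 0), (1, 0, -1, 0, 1, 0), (1, 0, -1, 0, -1, 0),
   (-1, 0, 1, 0, 1, 0), (-1, 0, 1, 0, -1, 0), (-1, 0, -1, 0, 1, 0), (-1, 0, -1, 0, -1, 0),
   (0, 0, -1, 1, 0, 1), (-1, 1, 0, 1, 0, 0), (0, 1, 0, 0, -1, 1), (0, 0, -1, 1, 0, -1),
   (-1, 1, 0, -1, 0, 0), (0, -1, 0, 0, -1, 1), (0, 0, 1, -1, 0, 1), (1, -1, 0, 1, 0, 0),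
   (0, 1, 0, 0, 1, -1), (0, 0, 1, -1, 0, -1), (1, -1, 0, -1, 0, 0), (0, -1, 0, 0, 1, -1)]

/-- The 113 jumps for the dodecahedron; `(i, j)` means that piece `i` leaps over piece `j`. -/
def dodM : List (ℕ × ℕ) :=
  [
   (15, 0), (15, 14), (8, 0), (8, 14), (15, 10), (15, 0), (8, 10), (8, 0), (14, 0), (10, 0),
   (10, 14), (14, 10), (14, 0), (10, 0), (10, 14), (15, 0), (9, 15), (9, 0), (15, 0), (15, 9),
   (2, 0), (10, 2), (10, 0), (14, 2), (14, 0), (2, 0), (2, 14), (15, 8), (15, 0), (10, 8),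
   (10, 0), (2, 8), (2, 0), (9, 8), (9, 0), (1, 9), (1, 10), (1, 2), (1, 10), (1, 0),
   (1, 15), (3, 14), (3, 10), (3, 9), (3, 10), (3, 0), (3, 8), (3, 0), (3, 15), (4, 10),
   (4, 14), (4, 15), (4, 9), (4, 0), (4, 9), (5, 2), (5, 10), (5, 0), (5, 14), (5, 0),
   (5, 9), (6, 10), (6, 8), (6, 15), (6, 9), (6, 0), (6, 9), (6, 0), (6, 2), (7, 0),
   (7, 10), (7, 0), (7, 8), (7, 0), (7, 9), (11, 14), (11, 8), (11, 0), (11, 9), (11, 0),
   (11, 2), (12, 15), (12, 14), (12, 0), (12, 9), (12, 0), (12, 9), (13, 9), (13, 10), (13, 2),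
   (13, 10), (13, 0), (13, 8), (13, 0), (13, 15), (16, 10), (16, 9), (16, 15), (16, 9), (16, 0),
   (16, 2), (17, 8), (17, 14), (17, 0), (17, 9), (18, 9), (18, 10), (18, 0), (18, 15), (19, 10),
   (19, 9), (19, 0), (19, 2)]

/-! ### Membership and injectivity -/

theorem zphi_inj {a b c d : ℤ} (h : (a : ℝ) + b * goldenRatio = c + d * goldenRatio) :
    a = c ∧ b = d := by
  have hirr := goldenRatio_irrational
  by_cases hbd : b = d
  · subst hbd
    refine ⟨?_, rfl⟩
    have : (a : ℝ) = c := by linarith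
    exact_mod_cast this
  · exfalso
    apply hirr
    refine ⟨((a - c : ℤ) : ℚ) / ((d - b : ℤ) : ℚ), ?_⟩
    have hne : ((d : ℝ) - b) ≠ 0 := by
      intro h0
      apply hbd
      have : (d : ℝ) = b := by linarith
      exact_mod_cast this.symm
    push_cast
    rw [div_eq_iff hne]
    linarith

theorem emb_injective : Function.Injective emb := by
  rintro ⟨a1, a2, a3, a4, a5, a6⟩ ⟨b1, b2, b3, b4, b5, b6⟩ h
  have h0 := congrArg (fun v : E3 => v 0) h
  have h1 := congrArg (fun v : E3 => v 1) h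
  have h2 := congrArg (fun v : E3 => v 2) h
  simp only [emb] at h0 h1 h2
  have e0 := zphi_inj (by simpa using h0)
  have e1 := zphi_inj (by simpa using h1)
  have e2 := zphi_inj (by simpa using h2)
  simp [e0.1, e0.2, e1.1, e1.2, e2.1, e2.2]

theorem conf_injective (L : List Z6) (n : ℕ) (hn : L.length = n) (hL : L.Nodup) :
    Function.Injective (conf L n) := by
  intro i j hij
  have h := emb_injective hij
  have hi : (i : ℕ) < L.length := by omega
  have hj : (j : ℕ) < L.length := by omega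
  simp only [List.getD_eq_getElem?_getD, hi, hj, List.getElem?_eq_getElem, Option.getD_some] at h
  exact Fin.ext ((List.Nodup.getElem_inj_iff hL).mp h)

theorem emb_eq (v : Z6) (x y z : ℝ) (h1 : (v.1 : ℝ) + v.2.1 * goldenRatio = x)
    (h2 : (v.2.2.1 : ℝ) + v.2.2.2.1 * goldenRatio = y)
    (h3 : (v.2.2.2.2.1 : ℝ) + v.2.2.2.2.2 * goldenRatio = z) : emb v = !₂[x, y, z] := by
  simp only [emb, h1, h2, h3]

theorem inv_phi : goldenRatio⁻¹ = goldenRatio - 1 := by
  rw [inv_goldenRatio]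
  linarith [goldenRatio_add_goldenConj]

theorem range_ico : Set.range (conf icoV 12) = icosahedron := by
  ext x
  constructor
  · rintro ⟨i, rfl⟩
    fin_cases i
    · exact ⟨1, 1, Or.inl rfl, Or.inl rfl,
        Or.inl (emb_eq (0, 0, 1, 0, 0, 1) _ _ _ (by push_cast; ring) (by push_cast; ring) (by push_cast; ring))⟩
    · exact ⟨1, 1, Or.inl rfl, Or.inl rfl,
        Or.inr (Or.inl (emb_eq (1, 0, 0, 1, 0, 0) _ _ _ (by push_cast; ring) (by push_cast; ring) (by push_cast; ring)))⟩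
    · exact ⟨1, 1, Or.inl rfl, Or.inl rfl,
        Or.inr (Or.inr (emb_eq (0, 1, 0, 0, 1, 0) _ _ _ (by push_cast; ring) (by push_cast; ring) (by push_cast; ring)))⟩
    · exact ⟨1, -1, Or.inl rfl, Or.inr rfl,
        Or.inl (emb_eq (0, 0, 1, 0, 0, -1) _ _ _ (by push_cast; ring) (by push_cast; ring) (by push_cast; ring))⟩
    · exact ⟨1, -1, Or.inl rfl, Or.inr rfl,
        Or.inr (Or.inl (emb_eq (1, 0, 0, -1, 0, 0) _ _ _ (by push_cast; ring) (by push_cast; ring) (by push_cast; ring)))⟩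
    · exact ⟨1, -1, Or.inl rfl, Or.inr rfl,
        Or.inr (Or.inr (emb_eq (0, -1, 0, 0, 1, 0) _ _ _ (by push_cast; ring) (by push_cast; ring) (by push_cast; ring)))⟩
    · exact ⟨-1, 1, Or.inr rfl, Or.inl rfl,
        Or.inl (emb_eq (0, 0, -1, 0, 0, 1) _ _ _ (by push_cast; ring) (by push_cast; ring) (by push_cast; ring))⟩
    · exact ⟨-1, 1, Or.inr rfl, Or.inl rfl,
        Or.inr (Or.inl (emb_eq (-1, 0, 0, 1, 0, 0) _ _ _ (by push_cast; ring) (by push_cast; ring) (by push_cast; ring)))⟩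
    · exact ⟨-1, 1, Or.inr rfl, Or.inl rfl,
        Or.inr (Or.inr (emb_eq (0, 1, 0, 0, -1, 0) _ _ _ (by push_cast; ring) (by push_cast; ring) (by push_cast; ring)))⟩
    · exact ⟨-1, -1, Or.inr rfl, Or.inr rfl,
        Or.inl (emb_eq (0, 0, -1, 0, 0, -1) _ _ _ (by push_cast; ring) (by push_cast; ring) (by push_cast; ring))⟩
    · exact ⟨-1, -1, Or.inr rfl, Or.inr rfl,
        Or.inr (Or.inl (emb_eq (-1, 0, 0, -1, 0, 0) _ _ _ (by push_cast; ring) (by push_cast; ring) (by push_cast; ring)))⟩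
    · exact ⟨-1, -1, Or.inr rfl, Or.inr rfl,
        Or.inr (Or.inr (emb_eq (0, -1, 0, 0, -1, 0) _ _ _ (by push_cast; ring) (by push_cast; ring) (by push_cast; ring)))⟩
  · rintro ⟨a, b, ha, hb, h⟩
    rcases ha with rfl | rfl <;> rcases hb with rfl | rfl <;> rcases h with rfl | rfl | rfl
    · exact ⟨0, emb_eq (0, 0, 1, 0, 0, 1) _ _ _ (by push_cast; ring) (by push_cast; ring) (by push_cast; ring)⟩
    · exact ⟨1, emb_eq (1, 0, 0, 1, 0, 0) _ _ _ (by push_cast; ring) (by push_cast; ring) (by push_cast; ring)⟩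
    · exact ⟨2, emb_eq (0, 1, 0, 0, 1, 0) _ _ _ (by push_cast; ring) (by push_cast; ring) (by push_cast; ring)⟩
    · exact ⟨3, emb_eq (0, 0, 1, 0, 0, -1) _ _ _ (by push_cast; ring) (by push_cast; ring) (by push_cast; ring)⟩
    · exact ⟨4, emb_eq (1, 0, 0, -1, 0, 0) _ _ _ (by push_cast; ring) (by push_cast; ring) (by push_cast; ring)⟩
    · exact ⟨5, emb_eq (0, -1, 0, 0, 1, 0) _ _ _ (by push_cast; ring) (by push_cast; ring) (by push_cast; ring)⟩
    · exact ⟨6, emb_eq (0, 0, -1, 0, 0, 1) _ _ _ (by push_cast; ring) (by push_cast; ring) (by push_cast; ring)⟩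
    · exact ⟨7, emb_eq (-1, 0, 0, 1, 0, 0) _ _ _ (by push_cast; ring) (by push_cast; ring) (by push_cast; ring)⟩
    · exact ⟨8, emb_eq (0, 1, 0, 0, -1, 0) _ _ _ (by push_cast; ring) (by push_cast; ring) (by push_cast; ring)⟩
    · exact ⟨9, emb_eq (0, 0, -1, 0, 0, -1) _ _ _ (by push_cast; ring) (by push_cast; ring) (by push_cast; ring)⟩
    · exact ⟨10, emb_eq (-1, 0, 0, -1, 0, 0) _ _ _ (by push_cast; ring) (by push_cast; ring) (by push_cast; ring)⟩
    · exact ⟨11, emb_eq (0, -1, 0, 0, -1, 0) _ _ _ (by push_cast; ring) (by push_cast; ring) (by push_cast; ring)⟩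

theorem range_dod : Set.range (conf dodV 20) = dodecahedron := by
  ext x
  constructor
  · rintro ⟨i, rfl⟩
    fin_cases i
    · exact ⟨1, 1, 1, Or.inl rfl, Or.inl rfl, Or.inl rfl,
        Or.inl (emb_eq (1, 0, 1, 0, 1, 0) _ _ _ (by push_cast; ring) (by push_cast; ring)
          (by push_cast; ring))⟩
    · exact ⟨1, 1, -1, Or.inl rfl, Or.inl rfl, Or.inr rfl,
        Or.inl (emb_eq (1, 0, 1, 0, -1, 0) _ _ _ (by push_cast; ring) (by push_cast; ring)
          (by push_cast; ring))⟩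
    · exact ⟨1, -1, 1, Or.inl rfl, Or.inr rfl, Or.inl rfl,
        Or.inl (emb_eq (1, 0, -1, 0, 1, 0) _ _ _ (by push_cast; ring) (by push_cast; ring)
          (by push_cast; ring))⟩
    · exact ⟨1, -1, -1, Or.inl rfl, Or.inr rfl, Or.inr rfl,
        Or.inl (emb_eq (1, 0, -1, 0, -1, 0) _ _ _ (by push_cast; ring) (by push_cast; ring)
          (by push_cast; ring))⟩
    · exact ⟨-1, 1, 1, Or.inr rfl, Or.inl rfl, Or.inl rfl,
        Or.inl (emb_eq (-1, 0, 1, 0, 1, 0) _ _ _ (by push_cast; ring) (by push_cast; ring)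
          (by push_cast; ring))⟩
    · exact ⟨-1, 1, -1, Or.inr rfl, Or.inl rfl, Or.inr rfl,
        Or.inl (emb_eq (-1, 0, 1, 0, -1, 0) _ _ _ (by push_cast; ring) (by push_cast; ring)
          (by push_cast; ring))⟩
    · exact ⟨-1, -1, 1, Or.inr rfl, Or.inr rfl, Or.inl rfl,
        Or.inl (emb_eq (-1, 0, -1, 0, 1, 0) _ _ _ (by push_cast; ring) (by push_cast; ring)
          (by push_cast; ring))⟩
    · exact ⟨-1, -1, -1, Or.inr rfl, Or.inr rfl, Or.inr rfl,
        Or.inl (emb_eq (-1, 0, -1, 0, -1, 0) _ _ _ (by push_cast; ring) (by push_cast; ring)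
          (by push_cast; ring))⟩
    · exact ⟨1, 1, 1, Or.inl rfl, Or.inl rfl, Or.inl rfl,
        Or.inr (Or.inl (emb_eq (0, 0, -1, 1, 0, 1) _ _ _ (by push_cast; ring) (by rw [inv_phi]; push_cast; ring)
          (by push_cast; ring)))⟩
    · exact ⟨1, 1, 1, Or.inl rfl, Or.inl rfl, Or.inl rfl,
        Or.inr (Or.inr (Or.inl (emb_eq (-1, 1, 0, 1, 0, 0) _ _ _ (by rw [inv_phi]; push_cast; ring) (by push_cast; ring)
          (by push_cast; ring))))⟩
    · exact ⟨1, 1, 1, Or.inl rfl, Or.inl rfl, Or.inl rfl,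
        Or.inr (Or.inr (Or.inr (emb_eq (0, 1, 0, 0, -1, 1) _ _ _ (by push_cast; ring) (by push_cast; ring)
          (by rw [inv_phi]; push_cast; ring))))⟩
    · exact ⟨1, -1, 1, Or.inl rfl, Or.inr rfl, Or.inl rfl,
        Or.inr (Or.inl (emb_eq (0, 0, -1, 1, 0, -1) _ _ _ (by push_cast; ring) (by rw [inv_phi]; push_cast; ring)
          (by push_cast; ring)))⟩
    · exact ⟨1, -1, 1, Or.inl rfl, Or.inr rfl, Or.inl rfl,
        Or.inr (Or.inr (Or.inl (emb_eq (-1, 1, 0, -1, 0, 0) _ _ _ (by rw [inv_phi]; push_cast; ring) (by push_cast; ring)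
          (by push_cast; ring))))⟩
    · exact ⟨1, -1, 1, Or.inl rfl, Or.inr rfl, Or.inl rfl,
        Or.inr (Or.inr (Or.inr (emb_eq (0, -1, 0, 0, -1, 1) _ _ _ (by push_cast; ring) (by push_cast; ring)
          (by rw [inv_phi]; push_cast; ring))))⟩
    · exact ⟨-1, 1, 1, Or.inr rfl, Or.inl rfl, Or.inl rfl,
        Or.inr (Or.inl (emb_eq (0, 0, 1, -1, 0, 1) _ _ _ (by push_cast; ring) (by rw [inv_phi]; push_cast; ring)
          (by push_cast; ring)))⟩
    · exact ⟨-1, 1, 1, Or.inr rfl, Or.inl rfl, Or.inl rfl,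
        Or.inr (Or.inr (Or.inl (emb_eq (1, -1, 0, 1, 0, 0) _ _ _ (by rw [inv_phi]; push_cast; ring) (by push_cast; ring)
          (by push_cast; ring))))⟩
    · exact ⟨-1, 1, 1, Or.inr rfl, Or.inl rfl, Or.inl rfl,
        Or.inr (Or.inr (Or.inr (emb_eq (0, 1, 0, 0, 1, -1) _ _ _ (by push_cast; ring) (by push_cast; ring)
          (by rw [inv_phi]; push_cast; ring))))⟩
    · exact ⟨-1, -1, 1, Or.inr rfl, Or.inr rfl, Or.inl rfl,
        Or.inr (Or.inl (emb_eq (0, 0, 1, -1, 0, -1) _ _ _ (by push_cast; ring) (by rw [inv_phi]; push_cast; ring)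
          (by push_cast; ring)))⟩
    · exact ⟨-1, -1, 1, Or.inr rfl, Or.inr rfl, Or.inl rfl,
        Or.inr (Or.inr (Or.inl (emb_eq (1, -1, 0, -1, 0, 0) _ _ _ (by rw [inv_phi]; push_cast; ring) (by push_cast; ring)
          (by push_cast; ring))))⟩
    · exact ⟨-1, -1, 1, Or.inr rfl, Or.inr rfl, Or.inl rfl,
        Or.inr (Or.inr (Or.inr (emb_eq (0, -1, 0, 0, 1, -1) _ _ _ (by push_cast; ring) (by push_cast; ring)
          (by rw [inv_phi]; push_cast; ring))))⟩
  · rintro ⟨a, b, c, ha, hb, hc, h⟩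
    rcases ha with rfl | rfl <;> rcases hb with rfl | rfl <;> rcases hc with rfl | rfl <;>
      rcases h with rfl | rfl | rfl | rfl
    · exact ⟨0, emb_eq (1, 0, 1, 0, 1, 0) _ _ _ (by push_cast; ring) (by push_cast; ring)
        (by push_cast; ring)⟩
    · exact ⟨8, emb_eq (0, 0, -1, 1, 0, 1) _ _ _ (by push_cast; ring) (by rw [inv_phi]; push_cast; ring)
        (by push_cast; ring)⟩
    · exact ⟨9, emb_eq (-1, 1, 0, 1, 0, 0) _ _ _ (by rw [inv_phi]; push_cast; ring) (by push_cast; ring)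
        (by push_cast; ring)⟩
    · exact ⟨10, emb_eq (0, 1, 0, 0, -1, 1) _ _ _ (by push_cast; ring) (by push_cast; ring)
        (by rw [inv_phi]; push_cast; ring)⟩
    · exact ⟨1, emb_eq (1, 0, 1, 0, -1, 0) _ _ _ (by push_cast; ring) (by push_cast; ring)
        (by push_cast; ring)⟩
    · exact ⟨8, emb_eq (0, 0, -1, 1, 0, 1) _ _ _ (by push_cast; ring) (by rw [inv_phi]; push_cast; ring)
        (by push_cast; ring)⟩
    · exact ⟨9, emb_eq (-1, 1, 0, 1, 0, 0) _ _ _ (by rw [inv_phi]; push_cast; ring) (by push_cast; ring)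
        (by push_cast; ring)⟩
    · exact ⟨10, emb_eq (0, 1, 0, 0, -1, 1) _ _ _ (by push_cast; ring) (by push_cast; ring)
        (by rw [inv_phi]; push_cast; ring)⟩
    · exact ⟨2, emb_eq (1, 0, -1, 0, 1, 0) _ _ _ (by push_cast; ring) (by push_cast; ring)
        (by push_cast; ring)⟩
    · exact ⟨11, emb_eq (0, 0, -1, 1, 0, -1) _ _ _ (by push_cast; ring) (by rw [inv_phi]; push_cast; ring)
        (by push_cast; ring)⟩
    · exact ⟨12, emb_eq (-1, 1, 0, -1, 0, 0) _ _ _ (by rw [inv_phi]; push_cast; ring) (by push_cast; ring)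
        (by push_cast; ring)⟩
    · exact ⟨13, emb_eq (0, -1, 0, 0, -1, 1) _ _ _ (by push_cast; ring) (by push_cast; ring)
        (by rw [inv_phi]; push_cast; ring)⟩
    · exact ⟨3, emb_eq (1, 0, -1, 0, -1, 0) _ _ _ (by push_cast; ring) (by push_cast; ring)
        (by push_cast; ring)⟩
    · exact ⟨11, emb_eq (0, 0, -1, 1, 0, -1) _ _ _ (by push_cast; ring) (by rw [inv_phi]; push_cast; ring)
        (by push_cast; ring)⟩
    · exact ⟨12, emb_eq (-1, 1, 0, -1, 0, 0) _ _ _ (by rw [inv_phi]; push_cast; ring) (by push_cast; ring)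
        (by push_cast; ring)⟩
    · exact ⟨13, emb_eq (0, -1, 0, 0, -1, 1) _ _ _ (by push_cast; ring) (by push_cast; ring)
        (by rw [inv_phi]; push_cast; ring)⟩
    · exact ⟨4, emb_eq (-1, 0, 1, 0, 1, 0) _ _ _ (by push_cast; ring) (by push_cast; ring)
        (by push_cast; ring)⟩
    · exact ⟨14, emb_eq (0, 0, 1, -1, 0, 1) _ _ _ (by push_cast; ring) (by rw [inv_phi]; push_cast; ring)
        (by push_cast; ring)⟩
    · exact ⟨15, emb_eq (1, -1, 0, 1, 0, 0) _ _ _ (by rw [inv_phi]; push_cast; ring) (by push_cast; ring)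
        (by push_cast; ring)⟩
    · exact ⟨16, emb_eq (0, 1, 0, 0, 1, -1) _ _ _ (by push_cast; ring) (by push_cast; ring)
        (by rw [inv_phi]; push_cast; ring)⟩
    · exact ⟨5, emb_eq (-1, 0, 1, 0, -1, 0) _ _ _ (by push_cast; ring) (by push_cast; ring)
        (by push_cast; ring)⟩
    · exact ⟨14, emb_eq (0, 0, 1, -1, 0, 1) _ _ _ (by push_cast; ring) (by rw [inv_phi]; push_cast; ring)
        (by push_cast; ring)⟩
    · exact ⟨15, emb_eq (1, -1, 0, 1, 0, 0) _ _ _ (by rw [inv_phi]; push_cast; ring) (by push_cast; ring)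
        (by push_cast; ring)⟩
    · exact ⟨16, emb_eq (0, 1, 0, 0, 1, -1) _ _ _ (by push_cast; ring) (by push_cast; ring)
        (by rw [inv_phi]; push_cast; ring)⟩
    · exact ⟨6, emb_eq (-1, 0, -1, 0, 1, 0) _ _ _ (by push_cast; ring) (by push_cast; ring)
        (by push_cast; ring)⟩
    · exact ⟨17, emb_eq (0, 0, 1, -1, 0, -1) _ _ _ (by push_cast; ring) (by rw [inv_phi]; push_cast; ring)
        (by push_cast; ring)⟩
    · exact ⟨18, emb_eq (1, -1, 0, -1, 0, 0) _ _ _ (by rw [inv_phi]; push_cast; ring) (by push_cast; ring)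
        (by push_cast; ring)⟩
    · exact ⟨19, emb_eq (0, -1, 0, 0, 1, -1) _ _ _ (by push_cast; ring) (by push_cast; ring)
        (by rw [inv_phi]; push_cast; ring)⟩
    · exact ⟨7, emb_eq (-1, 0, -1, 0, -1, 0) _ _ _ (by push_cast; ring) (by push_cast; ring)
        (by push_cast; ring)⟩
    · exact ⟨17, emb_eq (0, 0, 1, -1, 0, -1) _ _ _ (by push_cast; ring) (by rw [inv_phi]; push_cast; ring)
        (by push_cast; ring)⟩
    · exact ⟨18, emb_eq (1, -1, 0, -1, 0, 0) _ _ _ (by rw [inv_phi]; push_cast; ring) (by push_cast; ring)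
        (by push_cast; ring)⟩
    · exact ⟨19, emb_eq (0, -1, 0, 0, 1, -1) _ _ _ (by push_cast; ring) (by push_cast; ring)
        (by rw [inv_phi]; push_cast; ring)⟩

theorem ico_run : run icoV icoM = icoV.map (blow (icoV.getD 0 0)) := by decide +kernel

theorem dod_run : run dodV dodM = dodV.map (blow (dodV.getD 0 0)) := by decide +kernel

theorem dodecahedron_enlarge (T : Set E3) (hT : IsRegularDodecahedron T) : CanBeEnlarged T :=
  enlarge_of_run 20 dodV dodM rfl (by decide) dod_run dodecahedron range_dod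
    (conf_injective _ _ rfl (by decide)) T hT

theorem icosahedron_enlarge (T : Set E3) (hT : IsRegularIcosahedron T) : CanBeEnlarged T :=
  enlarge_of_run 12 icoV icoM rfl (by decide) ico_run icosahedron range_ico
    (conf_injective _ _ rfl (by decide)) T hT

end Pool.Agent.Helper21.Leap
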